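import Pool.Agent.Helper60K9.Peak

/-!
# Cells
-/

set_option autoImplicit false

open MeasureTheory Complex
open scoped ComplexConjugate

namespace Pool.Agent.Helper60K9

/-- real coordinates -/
noncomputable def rc {n : ℕ} (z : Fin n → ℂ) (j : Fin n × Bool) : ℝ :=
  if j.2 then (z j.1).re else (z j.1).im

/-- the cell of a point -/
noncomputable def cell {n : ℕ} (L : ℕ) (z : Fin n → ℂ) (j : Fin n × Bool) : ℤ := ⌊(L : ℝ) * rc z j⌋

variable {n : ℕ}

lemma dd_eq (z w : Fin n → ℂ) : dd z w = ∑ j, (rc z j - rc w j) ^ 2 := by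
  unfold dd rc
  rw [Fintype.sum_prod_type]
  refine Finset.sum_congr rfl fun i _ => ?_
  rw [← Complex.normSq_eq_norm_sq, Complex.normSq_apply]
  simp
  ring

lemma summable_half : Summable (fun m : ℤ => (1 / 2 : ℝ) ^ m.natAbs) := by
  rw [summable_int_iff_summable_nat_and_neg]
  constructor
  · simpa using summable_geometric_two
  · simpa using summable_geometric_two

/-- the constant of the one dimensional sum -/
noncomputable def B1 : ℝ := ∑' m : ℤ, (1 / 2 : ℝ) ^ m.natAbs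

lemma sum_half_le (s : Finset ℤ) (a : ℤ) : ∑ m ∈ s, (1 / 2 : ℝ) ^ (m - a).natAbs ≤ B1 := by
  have h : ∑ m ∈ s, (1 / 2 : ℝ) ^ (m - a).natAbs =
      ∑ m ∈ s.map (Equiv.subRight a).toEmbedding, (1 / 2 : ℝ) ^ m.natAbs := by
    rw [Finset.sum_map]
    rfl
  rw [h]
  exact summable_half.sum_le_tsum _ fun _ _ => by positivity

lemma B1_pos : 0 < B1 := by
  have := sum_half_le {0} 0
  simp at this
  linarith

lemma exp_one_dim (u v : ℝ) :
    Real.exp (-((u - v) ^ 2 / 8)) ≤ Real.exp 3 * (1 / 2) ^ (⌊v⌋ - ⌊u⌋).natAbs := by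
  have h1 : (((⌊v⌋ - ⌊u⌋).natAbs : ℕ) : ℝ) ≤ |u - v| + 1 := by
    have h2 : (((⌊v⌋ - ⌊u⌋).natAbs : ℕ) : ℝ) = |((⌊v⌋ - ⌊u⌋ : ℤ) : ℝ)| := by
      rw [Nat.cast_natAbs, Int.cast_abs]
    rw [h2]
    push_cast
    have := Int.floor_le u
    have := Int.lt_floor_add_one u
    have := Int.floor_le v
    have := Int.lt_floor_add_one v
    rw [abs_le]
    have h3 := le_abs_self (u - v)
    have h4 := neg_abs_le (u - v)
    constructor <;> linarith
  have h2 : Real.exp (-1) ≤ 1 / 2 := by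
    have := Real.add_one_le_exp 1
    rw [Real.exp_neg, inv_le_comm₀ (Real.exp_pos _) (by norm_num)]
    linarith
  calc Real.exp (-((u - v) ^ 2 / 8)) ≤ Real.exp (3 + (((⌊v⌋ - ⌊u⌋).natAbs : ℕ) : ℝ) * (-1)) := by
        rw [Real.exp_le_exp]
        have h3 : (u - v) ^ 2 = |u - v| ^ 2 := (sq_abs _).symm
        rw [h3]
        nlinarith [sq_nonneg (|u - v| - 4)]
    _ = Real.exp 3 * Real.exp (-1) ^ (⌊v⌋ - ⌊u⌋).natAbs := by
        rw [Real.exp_add, Real.exp_nat_mul]
    _ ≤ _ := by gcongr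

/-- the constant of the sum over all cells -/
noncomputable def Cn (n : ℕ) : ℝ := (Real.exp 3 * B1) ^ Fintype.card (Fin n × Bool)

lemma Cn_pos (n : ℕ) : 0 < Cn n := by
  have := B1_pos
  unfold Cn
  positivity

open Classical in
/-- the cells which meet the sphere -/
noncomputable def cells (n L : ℕ) : Finset (Fin n × Bool → ℤ) :=
  (Fintype.piFinset (fun _ : Fin n × Bool => Finset.Icc (-(L : ℤ)) L)).filter
    (fun k => ∃ z ∈ Sph n, cell L z = k)

lemma rc_abs_le {z : Fin n → ℂ} (hz : z ∈ Sph n) (j : Fin n × Bool) : |rc z j| ≤ 1 := by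
  unfold rc
  split_ifs
  · exact (Complex.abs_re_le_norm _).trans (norm_le_one hz _)
  · exact (Complex.abs_im_le_norm _).trans (norm_le_one hz _)

lemma cell_mem {z : Fin n → ℂ} (hz : z ∈ Sph n) (L : ℕ) : cell L z ∈ cells n L := by
  classical
  unfold cells
  rw [Finset.mem_filter, Fintype.mem_piFinset]
  refine ⟨fun j => ?_, z, hz, rfl⟩
  have h := abs_le.1 (rc_abs_le hz j)
  have hL : (0 : ℝ) ≤ L := Nat.cast_nonneg L
  rw [Finset.mem_Icc]
  unfold cell
  constructor
  · rw [Int.le_floor]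
    push_cast
    nlinarith
  · have : (⌊(L : ℝ) * rc z j⌋ : ℝ) ≤ L := (Int.floor_le _).trans (by nlinarith)
    exact_mod_cast this

open Classical in
/-- a representative of a cell -/
noncomputable def rep {L : ℕ} (k : Fin n × Bool → ℤ) : Fin n → ℂ :=
  if h : ∃ z ∈ Sph n, cell L z = k then h.choose else 0

lemma rep_spec {L : ℕ} {k : Fin n × Bool → ℤ} (hk : k ∈ cells n L) :
    rep (L := L) k ∈ Sph n ∧ cell L (rep (L := L) k) = k := by
  classical
  have h : ∃ z ∈ Sph n, cell L z = k := by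
    unfold cells at hk
    exact (Finset.mem_filter.1 hk).2
  unfold rep
  rw [dif_pos h]
  exact h.choose_spec

lemma exp_dd_le {L : ℕ} (z : Fin n → ℂ) {k : Fin n × Bool → ℤ} (hk : k ∈ cells n L) :
    Real.exp (-(L ^ 2 * dd z (rep (L := L) k) / 8)) ≤
      ∏ j, (Real.exp 3 * (1 / 2) ^ (k j - cell L z j).natAbs) := by
  have h1 : -((L : ℝ) ^ 2 * dd z (rep (L := L) k) / 8) =
      ∑ j, -((L * rc z j - L * rc (rep (L := L) k) j) ^ 2 / 8) := by
    rw [dd_eq, Finset.mul_sum, Finset.sum_div, ← Finset.sum_neg_distrib]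
    refine Finset.sum_congr rfl fun j _ => ?_
    ring
  rw [h1, Real.exp_sum]
  refine Finset.prod_le_prod (fun _ _ => (Real.exp_pos _).le) fun j _ => ?_
  have h2 := exp_one_dim (L * rc z j) (L * rc (rep (L := L) k) j)
  have h3 : ⌊(L : ℝ) * rc (rep (L := L) k) j⌋ = k j := congrFun (rep_spec hk).2 j
  rw [h3] at h2
  exact h2

lemma sum_exp_le (L : ℕ) (z : Fin n → ℂ) :
    ∑ k ∈ cells n L, Real.exp (-(L ^ 2 * dd z (rep (L := L) k) / 8)) ≤ Cn n := by
  classical
  calc ∑ k ∈ cells n L, Real.exp (-(L ^ 2 * dd z (rep (L := L) k) / 8))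
      ≤ ∑ k ∈ cells n L, ∏ j, (Real.exp 3 * (1 / 2) ^ (k j - cell L z j).natAbs) :=
        Finset.sum_le_sum fun k hk => exp_dd_le z hk
    _ ≤ ∑ k ∈ Fintype.piFinset (fun _ : Fin n × Bool => Finset.Icc (-(L : ℤ)) L),
          ∏ j, (Real.exp 3 * (1 / 2) ^ (k j - cell L z j).natAbs) := by
        apply Finset.sum_le_sum_of_subset_of_nonneg
        · unfold cells
          exact Finset.filter_subset _ _
        · intro k _ _
          positivity
    _ = ∏ j : Fin n × Bool, ∑ m ∈ Finset.Icc (-(L : ℤ)) L,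
          (Real.exp 3 * (1 / 2) ^ (m - cell L z j).natAbs) := by
        rw [Finset.prod_univ_sum]
    _ ≤ ∏ _j : Fin n × Bool, (Real.exp 3 * B1) := by
        refine Finset.prod_le_prod (fun j _ => Finset.sum_nonneg fun _ _ => by positivity)
          fun j _ => ?_
        rw [← Finset.mul_sum]
        gcongr
        exact sum_half_le _ _
    _ = Cn n := by
        rw [Finset.prod_const, Cn, Finset.card_univ]

/-- points in one cell are close -/
lemma dd_cell {L : ℕ} {z w : Fin n → ℂ} (h : cell L z = cell L w) : L ^ 2 * dd z w ≤ 2 * n := by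
  rw [dd_eq, Finset.mul_sum]
  calc ∑ j, (L : ℝ) ^ 2 * (rc z j - rc w j) ^ 2 ≤ ∑ _j : Fin n × Bool, (1 : ℝ) := by
        refine Finset.sum_le_sum fun j _ => ?_
        have h1 : ⌊(L : ℝ) * rc z j⌋ = ⌊(L : ℝ) * rc w j⌋ := congrFun h j
        have h2 := Int.abs_sub_lt_one_of_floor_eq_floor h1
        have h3 : (L : ℝ) ^ 2 * (rc z j - rc w j) ^ 2 = (L * rc z j - L * rc w j) ^ 2 := by ring
        rw [h3, ← sq_abs]
        have := abs_nonneg ((L : ℝ) * rc z j - L * rc w j)
        nlinarith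
    _ = 2 * n := by
        simp
        ring

/-- the sup distance is at most the Euclidean distance -/
lemma dist_sq_le (z w : Fin n → ℂ) : dist z w ^ 2 ≤ dd z w := by
  have h : dist z w ≤ Real.sqrt (dd z w) := by
    rw [dist_pi_le_iff (Real.sqrt_nonneg _)]
    intro i
    apply Real.le_sqrt_of_sq_le
    rw [dist_eq_norm]
    exact Finset.single_le_sum (f := fun j => ‖z j - w j‖ ^ 2) (fun j _ => by positivity)
      (Finset.mem_univ i)
  calc dist z w ^ 2 ≤ Real.sqrt (dd z w) ^ 2 := by gcongr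
    _ = dd z w := Real.sq_sqrt (dd_nonneg z w)

end Pool.Agent.Helper60K9
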