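import Mathlib

/-!
# Two families of polynomials on the unit disc
-/

set_option autoImplicit false

open Complex
open scoped ComplexConjugate

namespace Pool.Agent.Helper60K9

/-- truncation of `(1 + r w) / (1 - r w)` -/
noncomputable def FF (K : ℕ) (r : ℝ) (w : ℂ) : ℂ := 1 + 2 * ∑ k ∈ Finset.range K, (r * w) ^ (k + 1)

/-- truncation of `- log (1 - r w)` -/
noncomputable def GG (K : ℕ) (r : ℝ) (w : ℂ) : ℂ := ∑ k ∈ Finset.range K, (r * w) ^ (k + 1) / (k + 1)

lemma FF_eq (K : ℕ) (r : ℝ) (w : ℂ) :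
    FF K r w * (1 - r * w) = 1 + r * w - 2 * (r * w) ^ (K + 1) := by
  unfold FF
  generalize (r : ℂ) * w = u
  have h := mul_geom_sum u K
  have h2 : ∑ k ∈ Finset.range K, u ^ (k + 1) = u * ∑ k ∈ Finset.range K, u ^ k := by
    rw [Finset.mul_sum]
    exact Finset.sum_congr rfl fun k _ => by ring
  rw [h2]
  linear_combination (-2 * u) * h

variable {K : ℕ} {r : ℝ} {w : ℂ}

lemma norm_u (hr0 : 0 ≤ r) (hw : ‖w‖ ≤ 1) : ‖(r : ℂ) * w‖ ≤ r := by
  rw [norm_mul, Complex.norm_real, Real.norm_of_nonneg hr0]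
  nlinarith

lemma FF_re (hr0 : 0 ≤ r) (hr1 : r < 1) (hw : ‖w‖ ≤ 1) (hK : 2 * r ^ (K + 1) / (1 - r) ≤ 1) :
    |(FF K r w).re| ≤ (FF K r w).re + 2 := by
  have hu := norm_u hr0 hw
  have hF := FF_eq K r w
  set u := (r : ℂ) * w with hu_def
  have h1 : 1 - u ≠ 0 := by
    intro h
    have : u = 1 := (sub_eq_zero.1 h).symm
    rw [this, norm_one] at hu
    linarith
  have h2 : FF K r w = (1 + u) / (1 - u) - 2 * u ^ (K + 1) / (1 - u) := by
    rw [← sub_div, ← hF, mul_div_assoc, div_self h1, mul_one]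
  have h3 : 0 ≤ ((1 + u) / (1 - u)).re := by
    rw [Complex.div_re, ← add_div]
    apply div_nonneg _ (Complex.normSq_nonneg _)
    have h5 : ‖u‖ ^ 2 ≤ 1 := by
      rw [sq_le_one_iff₀ (norm_nonneg _)]
      linarith
    rw [← Complex.normSq_eq_norm_sq, Complex.normSq_apply] at h5
    simp only [Complex.add_re, Complex.sub_re, Complex.one_re, Complex.add_im, Complex.sub_im,
      Complex.one_im]
    nlinarith
  have h4 : ‖2 * u ^ (K + 1) / (1 - u)‖ ≤ 1 := by
    have h6 : 1 - r ≤ ‖1 - u‖ := by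
      have := norm_sub_norm_le (1 : ℂ) u
      rw [norm_one] at this
      linarith
    calc ‖2 * u ^ (K + 1) / (1 - u)‖ = 2 * ‖u‖ ^ (K + 1) / ‖1 - u‖ := by
          rw [norm_div, norm_mul, norm_pow]
          norm_num
      _ ≤ 2 * r ^ (K + 1) / (1 - r) := by
          have : 0 < 1 - r := by linarith
          gcongr
      _ ≤ 1 := hK
  have h7 : -1 ≤ (FF K r w).re := by
    rw [h2, Complex.sub_re]
    have := (abs_le.1 ((Complex.abs_re_le_norm _).trans h4)).2
    linarith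
  rw [abs_le]
  constructor <;> linarith

lemma GG_im (hr0 : 0 ≤ r) (hr1 : r < 1) (hw : ‖w‖ ≤ 1) (hK : 2 * r ^ (K + 1) / (1 - r) ≤ 1) :
    |(GG K r w).im| ≤ 3 := by
  have hu := norm_u hr0 hw
  have hG : GG K r w = ∑ k ∈ Finset.range K, ((r : ℂ) * w) ^ (k + 1) / (k + 1) := rfl
  set u := (r : ℂ) * w with hu_def
  have hu1 : ‖-u‖ < 1 := by
    rw [norm_neg]
    linarith
  have h1 := Complex.norm_log_sub_logTaylor_le K hu1
  have h2 : Complex.logTaylor (K + 1) (-u) = -GG K r w := by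
    rw [hG, Complex.logTaylor, Finset.sum_range_succ', ← Finset.sum_neg_distrib]
    simp only [Nat.cast_zero, div_zero, add_zero]
    refine Finset.sum_congr rfl fun k _ => ?_
    have : (-1 : ℂ) ^ (k + 1 + 1) * (-u) ^ (k + 1) = -u ^ (k + 1) := by
      rw [neg_pow u (k + 1), ← mul_assoc, ← pow_add]
      have : (-1 : ℂ) ^ (k + 1 + 1 + (k + 1)) = -1 := by
        apply Odd.neg_one_pow
        exact ⟨k + 1, by ring⟩
      rw [this]
      ring
    rw [this]
    push_cast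
    ring
  rw [h2, norm_neg] at h1
  have h3 : ‖u‖ ^ (K + 1) * (1 - ‖u‖)⁻¹ / (K + 1) ≤ 1 := by
    calc ‖u‖ ^ (K + 1) * (1 - ‖u‖)⁻¹ / (K + 1) ≤ ‖u‖ ^ (K + 1) * (1 - ‖u‖)⁻¹ / 1 := by
          have : 0 < 1 - ‖u‖ := by linarith
          gcongr
          have : (0 : ℝ) ≤ K := Nat.cast_nonneg K
          linarith
      _ = ‖u‖ ^ (K + 1) / (1 - ‖u‖) := by rw [div_one, div_eq_mul_inv]
      _ ≤ r ^ (K + 1) / (1 - r) := by
          have : 0 < 1 - r := by linarith
          gcongr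
      _ ≤ 2 * r ^ (K + 1) / (1 - r) := by
          have : 0 < 1 - r := by linarith
          have : 0 ≤ r ^ (K + 1) := by positivity
          gcongr
          linarith
      _ ≤ 1 := hK
  have h4 : |(Complex.log (1 + -u)).im| ≤ Real.pi / 2 := by
    rw [Complex.log_im, Complex.abs_arg_le_pi_div_two_iff]
    have := (abs_le.1 ((Complex.abs_re_le_norm u).trans hu)).2
    simp
    linarith
  have h5 : |(Complex.log (1 + -u) - -GG K r w).im| ≤ 1 :=
    (Complex.abs_im_le_norm _).trans (h1.trans h3)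
  have h6 := Real.pi_lt_four
  have h7 := abs_le.1 h4
  have h8 := abs_le.1 h5
  rw [Complex.sub_im, Complex.neg_im] at h8
  rw [abs_le]
  constructor <;> linarith [h7.1, h7.2, h8.1, h8.2]

end Pool.Agent.Helper60K9
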