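import Pool.Agent.Helper60K9.Step

/-!
# Polynomials which are almost inner
-/

set_option autoImplicit false

open MeasureTheory Complex
open scoped ComplexConjugate

namespace Pool.Agent.Helper60K9

variable {n : ℕ} {ν : Measure (Fin n → ℂ)}

lemma degree_le {p : MvPolynomial (Fin n) ℂ} {α : Fin n →₀ ℕ} (hα : α ∈ p.support) :
    ∑ i, α i ≤ p.totalDegree := by
  have h := MvPolynomial.le_totalDegree hα
  rwa [Finsupp.sum_fintype _ _ (fun _ => rfl)] at h

lemma Good.norm_add (h : Good ν) {p q : MvPolynomial (Fin n) ℂ} (hq : Ord (p.totalDegree + 1) q) :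
    ∫ z, ‖ev (p + q) z‖ ^ 2 ∂ν = ∫ z, ‖ev p z‖ ^ 2 ∂ν + ∫ z, ‖ev q z‖ ^ 2 ∂ν := by
  have h1 : ∫ z, ev p z * conj (ev q z) ∂ν = 0 := by
    apply h.orth
    intro α hα β hβ
    have := degree_le hα
    have := hq β hβ
    omega
  have h2 : ∫ z, (ev p z * conj (ev q z)).re ∂ν = 0 := by
    have hi : Integrable (fun z => ev p z * conj (ev q z)) ν :=
      h.integrable ((continuous_ev p).mul (Complex.continuous_conj.comp (continuous_ev q)))
    have h3 := integral_re (𝕜 := ℂ) hi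
    simp only [RCLike.re_to_complex] at h3
    rw [h3, h1]
    simp
  have h3 : ∀ z, ‖ev (p + q) z‖ ^ 2 = ‖ev p z‖ ^ 2 + ‖ev q z‖ ^ 2 +
      2 * (ev p z * conj (ev q z)).re := by
    intro z
    have e : ev (p + q) z = ev p z + ev q z := by simp [ev]
    rw [e, ← Complex.normSq_eq_norm_sq, ← Complex.normSq_eq_norm_sq, ← Complex.normSq_eq_norm_sq,
      Complex.normSq_add]
  have i1 : Integrable (fun z => ‖ev p z‖ ^ 2) ν := h.integrable ((continuous_ev p).norm.pow 2)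
  have i2 : Integrable (fun z => ‖ev q z‖ ^ 2) ν := h.integrable ((continuous_ev q).norm.pow 2)
  have i3 : Integrable (fun z => 2 * (ev p z * conj (ev q z)).re) ν :=
    (h.integrable (Complex.continuous_re.comp ((continuous_ev p).mul
      (Complex.continuous_conj.comp (continuous_ev q))))).const_mul 2
  have i12 : Integrable (fun z => ‖ev p z‖ ^ 2 + ‖ev q z‖ ^ 2) ν := i1.add i2
  simp only [h3]
  rw [integral_add i12 i3, integral_add i1 i2, integral_const_mul, h2, mul_zero, add_zero]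

/-- Almost inner polynomials. -/
theorem Good.inner (h : Good ν) (δ : ℝ) (hδ : 0 < δ) :
    ∃ φ : MvPolynomial (Fin n) ℂ, MvPolynomial.constantCoeff φ = 0 ∧
      (∀ z ∈ Sph n, ‖ev φ z‖ ≤ 1) ∧ ∫ z, (1 - ‖ev φ z‖) ∂ν ≤ δ := by
  have hfin := h.fin
  set V := ν.real Set.univ with hV
  have hV0 : 0 ≤ V := measureReal_nonneg
  set A : Set ℝ := {a | ∃ φ : MvPolynomial (Fin n) ℂ, MvPolynomial.constantCoeff φ = 0 ∧
      (∀ z ∈ Sph n, ‖ev φ z‖ ≤ 1) ∧ a = ∫ z, ‖ev φ z‖ ^ 2 ∂ν} with hA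
  have hne : A.Nonempty := ⟨_, 0, by simp, fun z _ => by simp [ev], rfl⟩
  have hbdd : ∀ a ∈ A, a ≤ V := by
    rintro a ⟨φ, -, h2, rfl⟩
    calc ∫ z, ‖ev φ z‖ ^ 2 ∂ν ≤ ∫ _z, (1 : ℝ) ∂ν := by
          apply integral_mono_ae (h.integrable ((continuous_ev φ).norm.pow 2)) (integrable_const _)
          filter_upwards [h.sph] with z hz
          exact pow_le_one₀ (norm_nonneg _) (h2 z hz)
      _ = V := by simp [hV]
  set s := sSup A with hs
  have hsV : s ≤ V := csSup_le hne hbdd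
  have hs0 : 0 ≤ s := by
    obtain ⟨a, ha⟩ := hne
    have h1 : 0 ≤ a := by
      obtain ⟨φ, -, -, rfl⟩ := ha
      exact integral_nonneg fun z => by positivity
    exact h1.trans (le_csSup ⟨V, hbdd⟩ ha)
  have hc0 := c0_pos n
  -- parameters
  set τ := δ / (2 * (V + 1)) with hτ
  have hτ0 : 0 < τ := by positivity
  -- we want `∫ (1 - |φ|) ^ 2 ≤ κ`
  set κ := δ * τ / 2 with hκ
  have hκ0 : 0 < κ := by positivity
  set η := c0 n * κ / 2 with hη
  have hη0 : 0 < η := by positivity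
  obtain ⟨ε, hε0, hε⟩ : ∃ ε : ℝ, 0 < ε ∧ V * (2 * ε + ε ^ 2) + c0 n * (2 * ε * V) ≤ η := by
    refine ⟨min 1 (η / (3 * V + 2 * c0 n * V + 1)), by positivity, ?_⟩
    set ε := min 1 (η / (3 * V + 2 * c0 n * V + 1)) with hεd
    have h1 : ε ≤ 1 := min_le_left _ _
    have h2 : ε ≤ η / (3 * V + 2 * c0 n * V + 1) := min_le_right _ _
    have h0 : 0 < ε := by positivity
    rw [le_div_iff₀ (by positivity)] at h2
    have h3 : ε ^ 2 ≤ ε := by nlinarith
    nlinarith [mul_le_mul_of_nonneg_left h3 hV0]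
  obtain ⟨a, ha, has⟩ := exists_lt_of_lt_csSup hne (show s - η < s by linarith)
  obtain ⟨φ, hφ0, hφ1, rfl⟩ := ha
  refine ⟨φ, hφ0, hφ1, ?_⟩
  obtain ⟨p, hp1, hp2, hp3⟩ := h.step φ hφ1 ε hε0 (φ.totalDegree + 1)
  -- the new polynomial
  have hnew : (1 + ε)⁻¹ ^ 2 * ∫ z, ‖ev (φ + p) z‖ ^ 2 ∂ν ≤ s := by
    apply le_csSup ⟨V, hbdd⟩
    refine ⟨MvPolynomial.C (((1 + ε)⁻¹ : ℝ) : ℂ) * (φ + p), ?_, ?_, ?_⟩
    · have := hp1.const
      simp [hφ0, this]
    · intro z hz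
      have e : ev (MvPolynomial.C (((1 + ε)⁻¹ : ℝ) : ℂ) * (φ + p)) z =
          (((1 + ε)⁻¹ : ℝ) : ℂ) * (ev φ z + ev p z) := by simp [ev]
      rw [e, norm_mul, Complex.norm_real, Real.norm_of_nonneg (by positivity),
        inv_mul_le_iff₀ (by positivity), mul_one]
      exact (norm_add_le _ _).trans (hp2 z hz)
    · rw [← integral_const_mul]
      congr 1
      funext z
      have e : ev (MvPolynomial.C (((1 + ε)⁻¹ : ℝ) : ℂ) * (φ + p)) z =
          (((1 + ε)⁻¹ : ℝ) : ℂ) * ev (φ + p) z := by simp [ev]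
      rw [e, norm_mul, Complex.norm_real, Real.norm_of_nonneg (by positivity), mul_pow]
  rw [h.norm_add hp1] at hnew
  have h4 : ∫ z, (1 - ‖ev φ z‖) ^ 2 ∂ν ≤ κ := by
    have h5 : ∫ z, ‖ev φ z‖ ^ 2 ∂ν + ∫ z, ‖ev p z‖ ^ 2 ∂ν ≤ (1 + ε) ^ 2 * s := by
      have : (1 + ε)⁻¹ ^ 2 = ((1 + ε) ^ 2)⁻¹ := inv_pow _ _
      rw [this, inv_mul_le_iff₀ (by positivity)] at hnew
      exact hnew
    have h6 : (1 + ε) ^ 2 * s ≤ s + V * (2 * ε + ε ^ 2) := by
      have : s * (2 * ε + ε ^ 2) ≤ V * (2 * ε + ε ^ 2) := by gcongr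
      nlinarith
    have h7 : c0 n * ∫ z, (1 - ‖ev φ z‖) ^ 2 ∂ν ≤ c0 n * κ := by
      have : c0 n * κ = 2 * η := by rw [hη]; ring
      rw [this]
      have h8 : c0 n * (∫ z, (1 - ‖ev φ z‖) ^ 2 ∂ν - 2 * ε * V) =
        c0 n * ∫ z, (1 - ‖ev φ z‖) ^ 2 ∂ν - c0 n * (2 * ε * V) := by ring
      rw [h8] at hp3
      linarith
    exact le_of_mul_le_mul_left h7 hc0
  have j1 : Integrable (fun z => 1 - ‖ev φ z‖) ν :=
    h.integrable (continuous_const.sub (continuous_ev φ).norm)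
  have j2 : Integrable (fun z => τ + τ⁻¹ * (1 - ‖ev φ z‖) ^ 2) ν := h.integrable (by
    have := continuous_ev φ
    fun_prop)
  calc ∫ z, (1 - ‖ev φ z‖) ∂ν ≤ ∫ z, (τ + τ⁻¹ * (1 - ‖ev φ z‖) ^ 2) ∂ν := by
        apply integral_mono j1 j2
        intro z
        show 1 - ‖ev φ z‖ ≤ τ + τ⁻¹ * (1 - ‖ev φ z‖) ^ 2
        set x := 1 - ‖ev φ z‖
        have h9 : τ * (τ⁻¹ * x ^ 2) = x ^ 2 := by field_simp
        by_cases hx : x ≤ τ
        · have : 0 ≤ τ⁻¹ * x ^ 2 := by positivity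
          linarith
        · push Not at hx
          have : x ≤ τ⁻¹ * x ^ 2 := by
            rw [le_inv_mul_iff₀ hτ0]
            nlinarith
          linarith
    _ = τ * V + τ⁻¹ * ∫ z, (1 - ‖ev φ z‖) ^ 2 ∂ν := by
        rw [integral_add (integrable_const _), integral_const_mul, integral_const, smul_eq_mul,
          mul_comm V]
        exact (h.integrable (by
            have := continuous_ev φ
            fun_prop))
    _ ≤ τ * V + τ⁻¹ * κ := by gcongr
    _ ≤ δ := by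
        have e1 : τ⁻¹ * κ = δ / 2 := by
          rw [hκ]
          field_simp
        have e2 : τ * V ≤ δ / 2 := by
          rw [hτ, div_mul_eq_mul_div, div_le_iff₀ (by positivity)]
          nlinarith
        linarith

end Pool.Agent.Helper60K9
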