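import Pool.Agent.Helper60K9.Cells

/-!
# Circle invariant measures on the sphere
-/

set_option autoImplicit false

open MeasureTheory Complex
open scoped ComplexConjugate

namespace Pool.Agent.Helper60K9

/-- finite measures on the unit sphere of `ℂ^n` which are invariant under multiplication by
unimodular scalars -/
structure Good {n : ℕ} (ν : Measure (Fin n → ℂ)) : Prop where
  fin : IsFiniteMeasure ν
  sph : ∀ᵐ z ∂ν, z ∈ Sph n
  rot : ∀ ω : ℂ, ‖ω‖ = 1 → MeasurePreserving (fun z : Fin n → ℂ => ω • z) ν ν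

variable {n : ℕ} {ν : Measure (Fin n → ℂ)}

lemma Good.integrable {E : Type*} [NormedAddCommGroup E] [SecondCountableTopology E]
    (h : Good ν) {g : (Fin n → ℂ) → E}
    (hg : Continuous g) : Integrable g ν := by
  have := h.fin
  obtain ⟨C, hC⟩ := (isCompact_Sph n).exists_bound_of_continuousOn hg.continuousOn
  refine Integrable.of_bound hg.aestronglyMeasurable C ?_
  filter_upwards [h.sph] with z hz using hC z hz

lemma Good.integral_rot {E : Type*} [NormedAddCommGroup E] [NormedSpace ℝ E]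
    (h : Good ν) {g : (Fin n → ℂ) → E}
    (hg : Continuous g) [SecondCountableTopology E] {ω : ℂ} (hω : ‖ω‖ = 1) :
    ∫ z, g (ω • z) ∂ν = ∫ z, g z ∂ν := by
  have h1 := h.rot ω hω
  conv_rhs => rw [← h1.map_eq]
  rw [integral_map h1.measurable.aemeasurable hg.aestronglyMeasurable]

/-- monomials -/
noncomputable def mon (α : Fin n →₀ ℕ) (z : Fin n → ℂ) : ℂ := ∏ i, z i ^ α i

lemma continuous_mon (α : Fin n →₀ ℕ) : Continuous (mon α) := by
  unfold mon
  fun_prop

lemma mon_rot (α : Fin n →₀ ℕ) (ω : ℂ) (z : Fin n → ℂ) :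
    mon α (ω • z) = ω ^ (∑ i, α i) * mon α z := by
  unfold mon
  rw [← Finset.prod_pow_eq_pow_sum, ← Finset.prod_mul_distrib]
  refine Finset.prod_congr rfl fun i _ => ?_
  rw [Pi.smul_apply, smul_eq_mul, mul_pow]

lemma exists_root {a b : ℕ} (h : a ≠ b) : ∃ ω : ℂ, ‖ω‖ = 1 ∧ ω ^ a * conj (ω ^ b) = -1 := by
  have key : ∀ {a b : ℕ}, a < b → ∃ ω : ℂ, ‖ω‖ = 1 ∧ ω ^ a * conj (ω ^ b) = -1 := by
    intro a b hab
    obtain ⟨c, rfl⟩ := Nat.exists_eq_add_of_lt hab
    refine ⟨Complex.exp ((Real.pi / (c + 1) : ℝ) * Complex.I), Complex.norm_exp_ofReal_mul_I _, ?_⟩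
    set ω := Complex.exp ((Real.pi / (c + 1) : ℝ) * Complex.I) with hω
    have h1 : ‖ω‖ = 1 := Complex.norm_exp_ofReal_mul_I _
    have h2 : ω * conj ω = 1 := by
      rw [Complex.mul_conj, Complex.normSq_eq_norm_sq, h1]
      norm_num
    have h3 : ω ^ (c + 1) = -1 := by
      rw [hω, ← Complex.exp_nat_mul]
      have : ((c + 1 : ℕ) : ℂ) * ((Real.pi / (c + 1) : ℝ) * Complex.I) = Real.pi * Complex.I := by
        push_cast
        have : (c : ℂ) + 1 ≠ 0 := Nat.cast_add_one_ne_zero c
        field_simp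
      rw [this, Complex.exp_pi_mul_I]
    calc ω ^ a * conj (ω ^ (a + c + 1)) = (ω * conj ω) ^ a * conj (ω ^ (c + 1)) := by
          rw [map_pow, map_pow]
          ring
      _ = -1 := by
          rw [h2, h3]
          simp
  rcases lt_or_gt_of_ne h with h | h
  · exact key h
  · obtain ⟨ω, h1, h2⟩ := key h
    refine ⟨ω, h1, ?_⟩
    have := congrArg conj h2
    simp only [map_mul, map_pow, Complex.conj_conj, map_neg, map_one] at this ⊢
    rw [mul_comm]
    exact this

lemma Good.mon_orth (h : Good ν) {α β : Fin n →₀ ℕ} (hab : ∑ i, α i ≠ ∑ i, β i) :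
    ∫ z, mon α z * conj (mon β z) ∂ν = 0 := by
  obtain ⟨ω, h1, h2⟩ := exists_root hab
  have hc : Continuous (fun z : Fin n → ℂ => mon α z * conj (mon β z)) :=
    (continuous_mon α).mul (Complex.continuous_conj.comp (continuous_mon β))
  have h3 := h.integral_rot hc h1
  have h4 : ∀ z : Fin n → ℂ, mon α (ω • z) * conj (mon β (ω • z)) =
      -(mon α z * conj (mon β z)) := by
    intro z
    rw [mon_rot, mon_rot, map_mul]
    calc _ = (ω ^ (∑ i, α i) * conj (ω ^ (∑ i, β i))) * (mon α z * conj (mon β z)) := by ring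
      _ = _ := by rw [h2]; ring
  simp only [h4] at h3
  rw [integral_neg] at h3
  have h5 : (2 : ℂ) * ∫ z, mon α z * conj (mon β z) ∂ν = 0 := by linear_combination -h3
  simpa using h5

/-- the evaluation of a polynomial -/
noncomputable def ev (p : MvPolynomial (Fin n) ℂ) (z : Fin n → ℂ) : ℂ := MvPolynomial.eval z p

lemma ev_eq (p : MvPolynomial (Fin n) ℂ) (z : Fin n → ℂ) :
    ev p z = ∑ α ∈ p.support, p.coeff α * mon α z := MvPolynomial.eval_eq' z p

lemma continuous_ev (p : MvPolynomial (Fin n) ℂ) : Continuous (ev p) :=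
  MvPolynomial.continuous_eval p

lemma Good.orth (h : Good ν) {p q : MvPolynomial (Fin n) ℂ}
    (hpq : ∀ α ∈ p.support, ∀ β ∈ q.support, ∑ i, α i ≠ ∑ i, β i) :
    ∫ z, ev p z * conj (ev q z) ∂ν = 0 := by
  have h1 : ∀ z, ev p z * conj (ev q z) = ∑ α ∈ p.support, ∑ β ∈ q.support,
      (p.coeff α * conj (q.coeff β)) * (mon α z * conj (mon β z)) := by
    intro z
    rw [ev_eq, ev_eq, map_sum, Finset.sum_mul_sum]
    refine Finset.sum_congr rfl fun α _ => Finset.sum_congr rfl fun β _ => ?_
    rw [map_mul]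
    ring
  have hc : ∀ α β : Fin n →₀ ℕ, Integrable (fun z => mon α z * conj (mon β z)) ν := fun α β =>
    h.integrable ((continuous_mon α).mul (Complex.continuous_conj.comp (continuous_mon β)))
  simp only [h1]
  rw [integral_finsetSum _ fun α _ => integrable_finsetSum _ fun β _ => (hc α β).const_mul _]
  refine Finset.sum_eq_zero fun α hα => ?_
  rw [integral_finsetSum _ fun β _ => (hc α β).const_mul _]
  refine Finset.sum_eq_zero fun β hβ => ?_
  rw [integral_const_mul, h.mon_orth (hpq α hα β hβ), mul_zero]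

/-- mean value property -/
lemma Good.mean (h : Good ν) (p : MvPolynomial (Fin n) ℂ) :
    ∫ z, ev p z ∂ν = ν.real Set.univ * MvPolynomial.constantCoeff p := by
  have := h.fin
  have h1 : ∫ z, ev (p - MvPolynomial.C (MvPolynomial.constantCoeff p)) z *
      conj (ev (1 : MvPolynomial (Fin n) ℂ) z) ∂ν = 0 := by
    apply h.orth
    intro α hα β hβ
    have hβ0 : β = 0 := by
      have h2 := MvPolynomial.mem_support_iff.1 hβ
      rw [MvPolynomial.coeff_one] at h2
      by_contra hne
      exact h2 (if_neg (Ne.symm hne))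
    have hα0 : α ≠ 0 := by
      rintro rfl
      have h2 := MvPolynomial.mem_support_iff.1 hα
      apply h2
      simp [MvPolynomial.constantCoeff_eq]
    rw [hβ0]
    simp only [Finsupp.coe_zero, Pi.zero_apply, Finset.sum_const_zero]
    intro h0
    apply hα0
    ext i
    exact (Finset.sum_eq_zero_iff.1 h0) i (Finset.mem_univ i)
  have h2 : ∀ z, ev (p - MvPolynomial.C (MvPolynomial.constantCoeff p)) z *
      conj (ev (1 : MvPolynomial (Fin n) ℂ) z) = ev p z - MvPolynomial.constantCoeff p := by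
    intro z
    simp [ev]
  simp only [h2] at h1
  rw [integral_sub (h.integrable (continuous_ev p)) (integrable_const _), integral_const,
    sub_eq_zero] at h1
  rw [h1, Complex.real_smul]

end Pool.Agent.Helper60K9
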