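import Pool.Agent.Helper60K9.Ratio

/-!
# `L^1` norms of holomorphic polynomials and of their real parts on the sphere

In every dimension the `L^1` norm of the real part does not control the `L^1` norm of a holomorphic
polynomial, for the rotation invariant measure of the unit sphere, and more generally for every
probability measure on the sphere which is invariant under multiplication by unimodular scalars.

Idea. There are polynomials `φ` with `φ 0 = 0`, `|φ| ≤ 1` on the sphere and `∫ (1 - |φ|)` arbitrarily
small: if `φ` has almost the largest possible `∫ |φ|^2`, then adding a sum of peak polynomials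
`± c (1 - |φ (ζ)|) ⟨z, ζ⟩ ^ m ((1 + ⟨z, ζ⟩) / 2) ^ (2 L ^ 2)` over a `1 / L`-net shows that
`∫ (1 - |φ|)^2` is small. Then `p` is a truncation of `(1 + r φ) / (1 - r φ)`, which has nonnegative
real part, and its `L^1` norm is bounded from below by testing against `arg (1 - r φ)`.
-/

set_option autoImplicit false

open MeasureTheory

namespace Pool.Agent.Helper60K9.KeptEveryDimension

/-- Let `ν` be a Borel probability measure on `ℂ^n` which is carried by the unit sphere and invariant
under `z ↦ ω z` for `|ω| = 1` (for instance the rotation invariant probability measure of the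
sphere). For every `M` there is a holomorphic polynomial `p` with `p 0 = 1` and
`∫ |p| dν > M ∫ |Re p| dν`. -/
theorem result (n : ℕ) (ν : Measure (Fin n → ℂ)) (hprob : IsProbabilityMeasure ν)
    (hsph : ∀ᵐ z ∂ν, ∑ i, ‖z i‖ ^ 2 = 1)
    (hrot : ∀ ω : ℂ, ‖ω‖ = 1 → Measure.map (fun z : Fin n → ℂ => ω • z) ν = ν) (M : ℝ) :
    ∃ p : MvPolynomial (Fin n) ℂ, MvPolynomial.eval 0 p = 1 ∧
      M * ∫ z, |(MvPolynomial.eval z p).re| ∂ν < ∫ z, ‖MvPolynomial.eval z p‖ ∂ν := by
  have h : Pool.Agent.Helper60K9.Good ν :=
    ⟨inferInstance, hsph, fun ω hω => ⟨by fun_prop, hrot ω hω⟩⟩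
  obtain ⟨p, h1, h2⟩ := h.unbounded (by simp) M
  refine ⟨p, ?_, h2⟩
  rw [← h1]
  rw [MvPolynomial.eval_zero]

end Pool.Agent.Helper60K9.KeptEveryDimension
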