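import Pool.Agent.Helper60K9.Ratio

/-!
# The measure of the sphere
-/

set_option autoImplicit false

open MeasureTheory Complex
open scoped ComplexConjugate

namespace Pool.Agent.Helper60K9

/-- the closed unit ball -/
def Bal (n : ℕ) : Set (Fin n → ℂ) := {z | ∑ i, ‖z i‖ ^ 2 ≤ 1}

/-- the radial projection -/
noncomputable def nz {n : ℕ} (z : Fin n → ℂ) : Fin n → ℂ :=
  fun i => z i / ((Real.sqrt (∑ j, ‖z j‖ ^ 2) : ℝ) : ℂ)

/-- the measure on the sphere: the image of the volume of the ball under the radial projection -/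
noncomputable def sig (n : ℕ) : Measure (Fin n → ℂ) := Measure.map nz (volume.restrict (Bal n))

variable {n : ℕ}

lemma measurable_nz : Measurable (nz (n := n)) := by
  apply measurable_pi_lambda
  intro i
  apply Measurable.div (measurable_pi_apply i)
  apply Complex.measurable_ofReal.comp
  apply Measurable.sqrt
  fun_prop

lemma measurableSet_Bal : MeasurableSet (Bal n) := by
  apply measurableSet_le _ measurable_const
  fun_prop

lemma nz_mem {z : Fin n → ℂ} (hz : z ≠ 0) : nz z ∈ Sph n := by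
  have hpos : 0 < ∑ j, ‖z j‖ ^ 2 := by
    obtain ⟨i, hi⟩ := Function.ne_iff.1 hz
    apply Finset.sum_pos' (fun j _ => by positivity)
    exact ⟨i, Finset.mem_univ i, by
      have : z i ≠ 0 := hi
      positivity⟩
  show ∑ i, ‖z i / ((Real.sqrt (∑ j, ‖z j‖ ^ 2) : ℝ) : ℂ)‖ ^ 2 = 1
  have h1 : ∀ i, ‖z i / ((Real.sqrt (∑ j, ‖z j‖ ^ 2) : ℝ) : ℂ)‖ ^ 2 =
      ‖z i‖ ^ 2 / (∑ j, ‖z j‖ ^ 2) := by
    intro i
    rw [norm_div, Complex.norm_real, div_pow, Real.norm_of_nonneg (Real.sqrt_nonneg _),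
      Real.sq_sqrt hpos.le]
  simp only [h1]
  rw [← Finset.sum_div, div_self hpos.ne']

lemma nz_rot {ω : ℂ} (hω : ‖ω‖ = 1) (z : Fin n → ℂ) : nz (ω • z) = ω • nz z := by
  funext i
  simp only [nz, Pi.smul_apply, smul_eq_mul, norm_mul, hω, one_mul]
  ring

lemma volume_Bal_lt : volume (Bal n) < ⊤ := by
  have h : Bal n ⊆ Metric.closedBall 0 1 := by
    intro z hz
    rw [mem_closedBall_zero_iff, pi_norm_le_iff_of_nonneg zero_le_one]
    intro i
    have h1 : ‖z i‖ ^ 2 ≤ ∑ j, ‖z j‖ ^ 2 :=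
      Finset.single_le_sum (f := fun j => ‖z j‖ ^ 2) (fun j _ => by positivity) (Finset.mem_univ i)
    have h2 : ∑ j, ‖z j‖ ^ 2 ≤ 1 := hz
    exact (sq_le_one_iff₀ (norm_nonneg _)).1 (h1.trans h2)
  exact (measure_mono h).trans_lt measure_closedBall_lt_top

lemma rot_volume {ω : ℂ} (hω : ‖ω‖ = 1) :
    MeasurePreserving (fun z : Fin n → ℂ => ω • z) volume volume := by
  have h : MeasurePreserving (fun a : ℂ => ω * a) volume volume := by
    have h1 := (rotation (⟨ω, by simpa [Submonoid.unitSphere] using hω⟩ : Circle)).measurePreserving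
    exact h1
  exact volume_preserving_pi (fun _ : Fin n => h)

lemma rot_Bal {ω : ℂ} (hω : ‖ω‖ = 1) : (fun z : Fin n → ℂ => ω • z) ⁻¹' (Bal n) = Bal n := by
  ext z
  show ∑ i, ‖ω * z i‖ ^ 2 ≤ 1 ↔ ∑ i, ‖z i‖ ^ 2 ≤ 1
  simp only [norm_mul, hω, one_mul]

theorem good_sig (hn : 0 < n) : Good (sig n) := by
  have hfin : IsFiniteMeasure (volume.restrict (Bal n)) := ⟨by
    rw [Measure.restrict_apply_univ]
    exact volume_Bal_lt⟩
  refine ⟨?_, ?_, ?_⟩
  · unfold sig
    infer_instance
  · unfold sig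
    refine (ae_map_iff (p := fun z => z ∈ Sph n) measurable_nz.aemeasurable
      (isCompact_Sph n).measurableSet).2 ?_
    apply ae_restrict_of_ae
    have h : ∀ᵐ z : Fin n → ℂ ∂volume, z ≠ 0 := by
      have : NeZero n := ⟨hn.ne'⟩
      exact Measure.ae_ne volume 0
    filter_upwards [h] with z hz using nz_mem hz
  · intro ω hω
    have h1 : MeasurePreserving (fun z : Fin n → ℂ => ω • z) (volume.restrict (Bal n))
        (volume.restrict (Bal n)) := by
      have := (rot_volume hω (n := n)).restrict_preimage (measurableSet_Bal (n := n))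
      rwa [rot_Bal hω] at this
    have hm : Measurable (fun z : Fin n → ℂ => ω • z) := h1.measurable
    refine ⟨hm, ?_⟩
    unfold sig
    rw [Measure.map_map hm measurable_nz]
    have h2 : (fun z : Fin n → ℂ => ω • z) ∘ nz = nz ∘ (fun z : Fin n → ℂ => ω • z) := by
      funext z
      exact (nz_rot hω z).symm
    rw [h2, ← Measure.map_map measurable_nz hm, h1.map_eq]

lemma sig_pos (n : ℕ) : 0 < (sig n).real Set.univ := by
  have h1 : sig n Set.univ = volume (Bal n) := by
    unfold sig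
    rw [Measure.map_apply measurable_nz MeasurableSet.univ, Set.preimage_univ,
      Measure.restrict_apply_univ]
  rw [measureReal_def, h1]
  apply ENNReal.toReal_pos _ volume_Bal_lt.ne
  have h2 : IsOpen {z : Fin n → ℂ | ∑ i, ‖z i‖ ^ 2 < 1} := by
    apply isOpen_lt _ continuous_const
    fun_prop
  have h3 : ({z : Fin n → ℂ | ∑ i, ‖z i‖ ^ 2 < 1}).Nonempty := ⟨0, by simp⟩
  have h4 := h2.measure_pos volume h3
  have h5 : {z : Fin n → ℂ | ∑ i, ‖z i‖ ^ 2 < 1} ⊆ Bal n := fun z hz => by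
    have h6 : ∑ i, ‖z i‖ ^ 2 < 1 := hz
    exact h6.le
  exact (h4.trans_le (measure_mono h5)).ne'

lemma integral_sig {E : Type*} [NormedAddCommGroup E] [NormedSpace ℝ E] [SecondCountableTopology E]
    {g : (Fin n → ℂ) → E} (hg : Continuous g) :
    ∫ z, g z ∂(sig n) = ∫ z in Bal n, g (nz z) := by
  unfold sig
  rw [integral_map measurable_nz.aemeasurable hg.aestronglyMeasurable]

/-- For every `n ≥ 1` and every `M` there is a polynomial `p` with `p 0 = 1` whose `L^1` norm on
the unit sphere is larger than `M` times the `L^1` norm of its real part. -/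
theorem sphere_unbounded (hn : 0 < n) (M : ℝ) :
    ∃ p : MvPolynomial (Fin n) ℂ, MvPolynomial.constantCoeff p = 1 ∧
      M * ∫ z in Bal n, |(ev p (nz z)).re| < ∫ z in Bal n, ‖ev p (nz z)‖ := by
  obtain ⟨p, h1, h2⟩ := (good_sig hn).unbounded (sig_pos n) M
  refine ⟨p, h1, ?_⟩
  have hc := continuous_ev p
  have e1 : ∫ z, |(ev p z).re| ∂(sig n) = ∫ z in Bal n, |(ev p (nz z)).re| :=
    integral_sig (g := fun z => |(ev p z).re|) (Complex.continuous_re.comp hc).abs
  have e2 : ∫ z, ‖ev p z‖ ∂(sig n) = ∫ z in Bal n, ‖ev p (nz z)‖ :=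
    integral_sig (g := fun z => ‖ev p z‖) hc.norm
  rwa [e1, e2] at h2

end Pool.Agent.Helper60K9
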