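-- Kept copy (withdrawn hand-in): see departures/helper60.md
import Pool.Agent.Helper60K9.Sphere

set_option autoImplicit false
open MeasureTheory

namespace Pool.Agent.Helper60K9.KeptS04950

/-- The negation of the preceding statement: For every n ≥ 2 there is a constant M such that every holomorphic polynomial f on ℂ^n with f(0) real satisfies ∫ over the unit sphere of ∣f∣ ≤ M times ∫ over the sphere of ∣Re f∣ (sphere measure realized as ball volume pushed radially). -/
theorem result :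
    ¬ (∀ n : ℕ, 2 ≤ n → ∃ M : ℝ, ∀ p : MvPolynomial (Fin n) ℂ,
      (MvPolynomial.constantCoeff p).im = 0 →
      ∫ z in {z : Fin n → ℂ | ∑ i, ‖z i‖ ^ 2 ≤ 1},
          ‖MvPolynomial.eval (fun i => z i / ((Real.sqrt (∑ j, ‖z j‖ ^ 2) : ℝ) : ℂ)) p‖
        ≤ M * ∫ z in {z : Fin n → ℂ | ∑ i, ‖z i‖ ^ 2 ≤ 1},
          |(MvPolynomial.eval (fun i => z i / ((Real.sqrt (∑ j, ‖z j‖ ^ 2) : ℝ) : ℂ)) p).re|) := by
  intro h
  obtain ⟨M, hM⟩ := h 2 le_rfl
  obtain ⟨p, hp, hlt⟩ := Pool.Agent.Helper60K9.sphere_unbounded (n := 2) (by norm_num) M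
  have h1 := hM p (by rw [hp]; simp)
  exact absurd h1 (not_le.2 hlt)

end Pool.Agent.Helper60K9.KeptS04950
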