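import Mathlib

/-!
# Peak polynomials on the unit sphere of `ℂ^n`
-/

set_option autoImplicit false

open MeasureTheory Complex
open scoped ComplexConjugate

namespace Pool.Agent.Helper60K9

/-- The unit sphere of `ℂ^n`. -/
def Sph (n : ℕ) : Set (Fin n → ℂ) := {z | ∑ i, ‖z i‖ ^ 2 = 1}

/-- The Hermitian product. -/
noncomputable def ip {n : ℕ} (z w : Fin n → ℂ) : ℂ := ∑ i, conj (w i) * z i

/-- The square of the Euclidean distance. -/
noncomputable def dd {n : ℕ} (z w : Fin n → ℂ) : ℝ := ∑ i, ‖z i - w i‖ ^ 2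

variable {n : ℕ}

lemma norm_le_one {z : Fin n → ℂ} (hz : z ∈ Sph n) (i : Fin n) : ‖z i‖ ≤ 1 := by
  have h1 : ‖z i‖ ^ 2 ≤ ∑ j, ‖z j‖ ^ 2 :=
    Finset.single_le_sum (f := fun j => ‖z j‖ ^ 2) (fun j _ => by positivity) (Finset.mem_univ i)
  have h2 : ∑ j, ‖z j‖ ^ 2 = 1 := hz
  rw [h2] at h1
  exact (sq_le_one_iff₀ (norm_nonneg _)).1 h1

lemma isCompact_Sph (n : ℕ) : IsCompact (Sph n) := by
  apply Metric.isCompact_of_isClosed_isBounded
  · apply isClosed_eq (by fun_prop) continuous_const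
  · refine (Metric.isBounded_iff_subset_closedBall (0 : Fin n → ℂ)).2 ⟨1, ?_⟩
    intro z hz
    rw [mem_closedBall_zero_iff, pi_norm_le_iff_of_nonneg zero_le_one]
    exact norm_le_one hz

lemma dd_nonneg (z w : Fin n → ℂ) : 0 ≤ dd z w :=
  Finset.sum_nonneg fun _ _ => by positivity

lemma re_ip {z w : Fin n → ℂ} (hz : z ∈ Sph n) (hw : w ∈ Sph n) :
    (ip z w).re = 1 - dd z w / 2 := by
  have h2 : ∑ j, ‖z j‖ ^ 2 = 1 := hz
  have h3 : ∑ j, ‖w j‖ ^ 2 = 1 := hw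
  have h : dd z w = ∑ j, ‖z j‖ ^ 2 + ∑ j, ‖w j‖ ^ 2 - 2 * (ip z w).re := by
    unfold dd ip
    rw [Complex.re_sum, Finset.mul_sum, ← Finset.sum_add_distrib, ← Finset.sum_sub_distrib]
    refine Finset.sum_congr rfl fun i _ => ?_
    rw [← Complex.normSq_eq_norm_sq, ← Complex.normSq_eq_norm_sq, ← Complex.normSq_eq_norm_sq,
      Complex.normSq_sub, mul_comm (conj (w i)) (z i)]
  rw [h, h2, h3]
  ring

lemma norm_ip_le {z w : Fin n → ℂ} (hz : z ∈ Sph n) (hw : w ∈ Sph n) : ‖ip z w‖ ≤ 1 := by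
  have h2 : ∑ j, ‖z j‖ ^ 2 = 1 := hz
  have h3 : ∑ j, ‖w j‖ ^ 2 = 1 := hw
  calc ‖ip z w‖ ≤ ∑ i, ‖conj (w i) * z i‖ := norm_sum_le _ _
    _ ≤ ∑ i, ((‖z i‖ ^ 2 + ‖w i‖ ^ 2) / 2) := by
      refine Finset.sum_le_sum fun i _ => ?_
      rw [norm_mul, RCLike.norm_conj]
      nlinarith [sq_nonneg (‖z i‖ - ‖w i‖)]
    _ = 1 := by
      rw [← Finset.sum_div, Finset.sum_add_distrib, h2, h3]
      norm_num

/-- The peak function. -/
noncomputable def pk (M L : ℕ) (w z : Fin n → ℂ) : ℂ :=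
  (ip z w) ^ M * ((1 + ip z w) / 2) ^ (2 * L ^ 2)

lemma norm_sq_half (w : ℂ) : ‖(1 + w) / 2‖ ^ 2 = (1 + 2 * w.re + ‖w‖ ^ 2) / 4 := by
  rw [norm_div, div_pow, ← Complex.normSq_eq_norm_sq, ← Complex.normSq_eq_norm_sq w,
    Complex.normSq_add]
  simp
  ring

lemma pk_upper (M L : ℕ) {z w : Fin n → ℂ} (hz : z ∈ Sph n) (hw : w ∈ Sph n) :
    ‖pk M L w z‖ ≤ Real.exp (-(L ^ 2 * dd z w / 8)) ^ 2 := by
  have h1 := norm_ip_le hz hw
  have h2 := re_ip hz hw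
  have h3 := dd_nonneg z w
  unfold pk
  rw [norm_mul, norm_pow, norm_pow]
  have h4 : ‖(1 + ip z w) / 2‖ ^ 2 ≤ Real.exp (-(dd z w / 4)) := by
    rw [norm_sq_half, h2]
    have h5 : ‖ip z w‖ ^ 2 ≤ 1 := by
      rw [sq_le_one_iff₀ (norm_nonneg _)]
      exact h1
    have h6 := Real.add_one_le_exp (-(dd z w / 4))
    linarith
  calc ‖ip z w‖ ^ M * ‖(1 + ip z w) / 2‖ ^ (2 * L ^ 2)
      ≤ 1 * Real.exp (-(dd z w / 4)) ^ (L ^ 2) := by
        rw [pow_mul]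
        gcongr
        exact pow_le_one₀ (norm_nonneg _) h1
    _ = Real.exp (-(L ^ 2 * dd z w / 8)) ^ 2 := by
        rw [one_mul, ← Real.exp_nat_mul, ← Real.exp_nat_mul]
        congr 1
        push_cast
        ring

lemma one_sub_ge_exp {x : ℝ} (h0 : 0 ≤ x) (h1 : x ≤ 1 / 2) : Real.exp (-(2 * x)) ≤ 1 - x := by
  rw [Real.exp_neg]
  have h2 := Real.add_one_le_exp (2 * x)
  rw [inv_le_comm₀ (Real.exp_pos _) (by linarith)]
  calc (1 - x)⁻¹ ≤ 2 * x + 1 := by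
        rw [inv_le_iff_one_le_mul₀ (by linarith)]
        nlinarith
    _ ≤ _ := h2

lemma pk_lower (M L : ℕ) (hL : 2 * n ≤ L ^ 2) (hM : M ≤ L ^ 2) (hL0 : 0 < L) {z w : Fin n → ℂ}
    (hz : z ∈ Sph n) (hw : w ∈ Sph n) (hd : L ^ 2 * dd z w ≤ 2 * n) :
    Real.exp (-(4 * n)) ≤ ‖pk M L w z‖ := by
  have h2 := re_ip hz hw
  have h3 := dd_nonneg z w
  have hL' : (0 : ℝ) < (L : ℝ) ^ 2 := by positivity
  have hLn : 2 * (n : ℝ) ≤ (L : ℝ) ^ 2 := by exact_mod_cast hL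
  have hML : (M : ℝ) ≤ (L : ℝ) ^ 2 := by exact_mod_cast hM
  have h5 : dd z w / 2 ≤ 1 / 2 := by
    have : (L : ℝ) ^ 2 * dd z w ≤ (L : ℝ) ^ 2 * 1 := by linarith
    have := le_of_mul_le_mul_left this hL'
    linarith
  have h6 : Real.exp (-(dd z w)) ≤ ‖ip z w‖ := by
    calc Real.exp (-(dd z w)) = Real.exp (-(2 * (dd z w / 2))) := by congr 1; ring
      _ ≤ 1 - dd z w / 2 := one_sub_ge_exp (by linarith) h5
      _ = (ip z w).re := h2.symm
      _ ≤ ‖ip z w‖ := Complex.re_le_norm _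
  have h7 : Real.exp (-(dd z w / 2)) ≤ ‖(1 + ip z w) / 2‖ := by
    calc Real.exp (-(dd z w / 2)) = Real.exp (-(2 * (dd z w / 4))) := by congr 1; ring
      _ ≤ 1 - dd z w / 4 := one_sub_ge_exp (by linarith) (by linarith)
      _ = ((1 + ip z w) / 2).re := by
        have : ((1 + ip z w) / 2).re = (1 + (ip z w).re) / 2 := by
          simp
        rw [this, h2]
        ring
      _ ≤ ‖(1 + ip z w) / 2‖ := Complex.re_le_norm _
  unfold pk
  rw [norm_mul, norm_pow, norm_pow]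
  calc Real.exp (-(4 * n)) = Real.exp (-(2 * n)) * Real.exp (-(2 * n)) := by
        rw [← Real.exp_add]
        congr 1
        ring
    _ ≤ Real.exp (-(dd z w)) ^ M * Real.exp (-(dd z w / 2)) ^ (2 * L ^ 2) := by
        rw [← Real.exp_nat_mul, ← Real.exp_nat_mul]
        gcongr
        · have : (M : ℝ) * dd z w ≤ (L : ℝ) ^ 2 * dd z w := by gcongr
          linarith
        · push_cast
          linarith
    _ ≤ _ := by gcongr

end Pool.Agent.Helper60K9
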