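import Pool.Agent.Helper60K9.Inner
import Pool.Agent.Helper60K9.Disc

/-!
# The ratio is unbounded
-/

set_option autoImplicit false

open MeasureTheory Complex
open scoped ComplexConjugate

namespace Pool.Agent.Helper60K9

variable {n : ℕ} {ν : Measure (Fin n → ℂ)}

/-- the polynomial `FF ∘ φ` -/
noncomputable def FP (K : ℕ) (r : ℝ) (φ : MvPolynomial (Fin n) ℂ) : MvPolynomial (Fin n) ℂ :=
  1 + MvPolynomial.C 2 * ∑ k ∈ Finset.range K, (MvPolynomial.C (r : ℂ) * φ) ^ (k + 1)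

/-- the polynomial `GG ∘ φ` -/
noncomputable def GP (K : ℕ) (r : ℝ) (φ : MvPolynomial (Fin n) ℂ) : MvPolynomial (Fin n) ℂ :=
  ∑ k ∈ Finset.range K, MvPolynomial.C (((k : ℂ) + 1)⁻¹) * (MvPolynomial.C (r : ℂ) * φ) ^ (k + 1)

lemma ev_FP (K : ℕ) (r : ℝ) (φ : MvPolynomial (Fin n) ℂ) (z : Fin n → ℂ) :
    ev (FP K r φ) z = FF K r (ev φ z) := by
  simp [ev, FP, FF]

lemma ev_GP (K : ℕ) (r : ℝ) (φ : MvPolynomial (Fin n) ℂ) (z : Fin n → ℂ) :
    ev (GP K r φ) z = GG K r (ev φ z) := by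
  simp [ev, GP, GG, div_eq_inv_mul]

lemma cc_FP (K : ℕ) (r : ℝ) {φ : MvPolynomial (Fin n) ℂ} (h : MvPolynomial.constantCoeff φ = 0) :
    MvPolynomial.constantCoeff (FP K r φ) = 1 := by
  simp [FP, h]

lemma cc_GP (K : ℕ) (r : ℝ) {φ : MvPolynomial (Fin n) ℂ} (h : MvPolynomial.constantCoeff φ = 0) :
    MvPolynomial.constantCoeff (GP K r φ) = 0 := by
  simp [GP, h]

lemma ev_pow (φ : MvPolynomial (Fin n) ℂ) (k : ℕ) (z : Fin n → ℂ) :
    ev (φ ^ k) z = ev φ z ^ k := by simp [ev]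

lemma ev_mul (φ p : MvPolynomial (Fin n) ℂ) (z : Fin n → ℂ) :
    ev (φ * p) z = ev φ z * ev p z := by simp [ev]

/-- the moments of an almost inner polynomial -/
lemma Good.moment (h : Good ν) {φ : MvPolynomial (Fin n) ℂ}
    (h0 : MvPolynomial.constantCoeff φ = 0) (h1 : ∀ z ∈ Sph n, ‖ev φ z‖ ≤ 1) (a d : ℕ) :
    ‖∫ z, ev φ z ^ (a + d) * conj (ev φ z ^ a) ∂ν - (if d = 0 then (ν.real Set.univ : ℂ) else 0)‖ ≤
      2 * a * ∫ z, (1 - ‖ev φ z‖) ∂ν := by
  have hfin := h.fin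
  have hc := continuous_ev φ
  have e1 : (if d = 0 then (ν.real Set.univ : ℂ) else 0) = ∫ z, ev φ z ^ d ∂ν := by
    have h2 := h.mean (φ ^ d)
    simp only [ev_pow] at h2
    rw [h2, map_pow, h0]
    split_ifs with hd
    · rw [hd, pow_zero, mul_one]
    · rw [zero_pow hd, mul_zero]
  have i1 : Integrable (fun z => ev φ z ^ (a + d) * conj (ev φ z ^ a)) ν :=
    h.integrable ((hc.pow _).mul (Complex.continuous_conj.comp (hc.pow _)))
  have i2 : Integrable (fun z => ev φ z ^ d) ν := h.integrable (hc.pow _)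
  rw [e1, ← integral_sub i1 i2]
  have i3 : Integrable (fun z => (2 * a) * (1 - ‖ev φ z‖)) ν :=
    h.integrable (continuous_const.mul (continuous_const.sub hc.norm))
  rw [← integral_const_mul]
  apply norm_integral_le_of_norm_le i3
  filter_upwards [h.sph] with z hz
  have h3 := h1 z hz
  set w := ev φ z with hw
  have e2 : w ^ (a + d) * conj (w ^ a) - w ^ d = (((‖w‖ ^ 2) ^ a - 1 : ℝ) : ℂ) * w ^ d := by
    have : w * conj w = ((‖w‖ ^ 2 : ℝ) : ℂ) := by
      rw [Complex.mul_conj, Complex.normSq_eq_norm_sq]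
    calc w ^ (a + d) * conj (w ^ a) - w ^ d = ((w * conj w) ^ a - 1) * w ^ d := by
          rw [map_pow]
          ring
      _ = _ := by rw [this]; push_cast; ring
  rw [e2, norm_mul, Complex.norm_real, norm_pow]
  have h4 : ‖w‖ ^ d ≤ 1 := pow_le_one₀ (norm_nonneg _) h3
  have h5 : ‖((‖w‖ ^ 2) ^ a - 1 : ℝ)‖ ≤ 2 * a * (1 - ‖w‖) := by
    have h6 : (‖w‖ ^ 2) ^ a ≤ 1 := by
      rw [← pow_mul]
      exact pow_le_one₀ (norm_nonneg _) h3
    rw [Real.norm_eq_abs, abs_sub_comm, abs_of_nonneg (by linarith)]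
    have h7 := one_add_mul_le_pow (a := ‖w‖ - 1) (by linarith [norm_nonneg w]) (2 * a)
    rw [pow_mul] at h7
    have e3 : 1 + (‖w‖ - 1) = ‖w‖ := by ring
    rw [e3] at h7
    push_cast at h7
    linarith
  calc _ ≤ (2 * a * (1 - ‖w‖)) * 1 := by
        gcongr
    _ = _ := mul_one _

lemma Good.moment' (h : Good ν) {φ : MvPolynomial (Fin n) ℂ}
    (h0 : MvPolynomial.constantCoeff φ = 0) (h1 : ∀ z ∈ Sph n, ‖ev φ z‖ ≤ 1) (K j k : ℕ)
    (hj : j ≤ K) (hk : k ≤ K) :
    ‖∫ z, ev φ z ^ j * conj (ev φ z ^ k) ∂ν - (if j = k then (ν.real Set.univ : ℂ) else 0)‖ ≤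
      2 * K * ∫ z, (1 - ‖ev φ z‖) ∂ν := by
  have hfin := h.fin
  have hδ : 0 ≤ ∫ z, (1 - ‖ev φ z‖) ∂ν := by
    apply integral_nonneg_of_ae
    filter_upwards [h.sph] with z hz
    exact sub_nonneg.2 (h1 z hz)
  rcases le_total k j with hkj | hjk
  · obtain ⟨d, rfl⟩ := Nat.exists_eq_add_of_le hkj
    have h2 := h.moment h0 h1 k d
    have e : (k + d = k) = (d = 0) := by
      apply propext
      omega
    simp only [e]
    refine h2.trans ?_
    gcongr
  · obtain ⟨d, rfl⟩ := Nat.exists_eq_add_of_le hjk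
    have h2 := h.moment h0 h1 j d
    have e : (j = j + d) = (d = 0) := by
      apply propext
      omega
    simp only [e]
    have e2 : ∫ z, ev φ z ^ j * conj (ev φ z ^ (j + d)) ∂ν =
        conj (∫ z, ev φ z ^ (j + d) * conj (ev φ z ^ j) ∂ν) := by
      rw [← integral_conj]
      congr 1
      funext z
      rw [map_mul, Complex.conj_conj, mul_comm]
    have e3 : (if d = 0 then (ν.real Set.univ : ℂ) else 0) =
        conj (if d = 0 then (ν.real Set.univ : ℂ) else 0) := by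
      split_ifs
      · rw [Complex.conj_ofReal]
      · rw [map_zero]
    rw [e2, e3, ← map_sub, RCLike.norm_conj]
    refine h2.trans ?_
    gcongr

lemma FF_sum (K : ℕ) (r : ℝ) (w : ℂ) :
    FF K r w = ∑ j ∈ Finset.range (K + 1), ((if j = 0 then 1 else 2 * r ^ j : ℝ) : ℂ) * w ^ j := by
  rw [Finset.sum_range_succ', FF, add_comm, Finset.mul_sum]
  congr 1
  · refine Finset.sum_congr rfl fun k _ => ?_
    rw [if_neg (Nat.succ_ne_zero k), mul_pow]
    push_cast
    ring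
  · simp

lemma GG_sum (K : ℕ) (r : ℝ) (w : ℂ) :
    GG K r w = ∑ k ∈ Finset.range K, ((r ^ (k + 1) / (k + 1) : ℝ) : ℂ) * w ^ (k + 1) := by
  rw [GG]
  refine Finset.sum_congr rfl fun k _ => ?_
  rw [mul_pow]
  push_cast
  ring

lemma Good.pairing (h : Good ν) {φ : MvPolynomial (Fin n) ℂ}
    (h0 : MvPolynomial.constantCoeff φ = 0) (h1 : ∀ z ∈ Sph n, ‖ev φ z‖ ≤ 1) (K : ℕ) {r : ℝ}
    (hr0 : 0 ≤ r) (hr1 : r ≤ 1) :
    ‖∫ z, FF K r (ev φ z) * conj (GG K r (ev φ z)) ∂ν -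
      ((ν.real Set.univ * ∑ k ∈ Finset.range K, 2 * r ^ (2 * (k + 1)) / (k + 1) : ℝ) : ℂ)‖ ≤
      (K + 1) * K * 2 * (2 * K * ∫ z, (1 - ‖ev φ z‖) ∂ν) := by
  have hfin := h.fin
  have hc := continuous_ev φ
  set a : ℕ → ℝ := fun j => if j = 0 then 1 else 2 * r ^ j with ha
  set b : ℕ → ℝ := fun k => r ^ (k + 1) / (k + 1) with hb
  have ha2 : ∀ j, |a j| ≤ 2 := by
    intro j
    simp only [ha]
    split_ifs
    · norm_num
    · rw [abs_of_nonneg (by positivity)]
      have := pow_le_one₀ hr0 hr1 (n := j)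
      linarith
  have hb1 : ∀ k, |b k| ≤ 1 := by
    intro k
    simp only [hb]
    rw [abs_of_nonneg (by positivity), div_le_one (by positivity)]
    have := pow_le_one₀ hr0 hr1 (n := k + 1)
    have : (0 : ℝ) ≤ k := Nat.cast_nonneg k
    linarith
  have e1 : ∫ z, FF K r (ev φ z) * conj (GG K r (ev φ z)) ∂ν =
      ∑ j ∈ Finset.range (K + 1), ∑ k ∈ Finset.range K,
        ((a j * b k : ℝ) : ℂ) * ∫ z, ev φ z ^ j * conj (ev φ z ^ (k + 1)) ∂ν := by
    have i1 : ∀ j k : ℕ, Integrable (fun z => ((a j * b k : ℝ) : ℂ) *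
        (ev φ z ^ j * conj (ev φ z ^ (k + 1)))) ν := fun j k =>
      h.integrable (continuous_const.mul ((hc.pow _).mul (Complex.continuous_conj.comp (hc.pow _))))
    have e2 : ∀ z, FF K r (ev φ z) * conj (GG K r (ev φ z)) =
        ∑ j ∈ Finset.range (K + 1), ∑ k ∈ Finset.range K,
        ((a j * b k : ℝ) : ℂ) * (ev φ z ^ j * conj (ev φ z ^ (k + 1))) := by
      intro z
      rw [FF_sum, GG_sum, map_sum, Finset.sum_mul_sum]
      refine Finset.sum_congr rfl fun j _ => Finset.sum_congr rfl fun k _ => ?_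
      rw [map_mul, Complex.conj_ofReal]
      simp only [ha, hb]
      push_cast
      ring
    simp only [e2]
    rw [integral_finsetSum _ fun j _ => integrable_finsetSum _ fun k _ => i1 j k]
    refine Finset.sum_congr rfl fun j _ => ?_
    rw [integral_finsetSum _ fun k _ => i1 j k]
    refine Finset.sum_congr rfl fun k _ => ?_
    rw [integral_const_mul]
  have e3 : ((ν.real Set.univ * ∑ k ∈ Finset.range K, 2 * r ^ (2 * (k + 1)) / (k + 1) : ℝ) : ℂ) =
      ∑ j ∈ Finset.range (K + 1), ∑ k ∈ Finset.range K,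
        ((a j * b k : ℝ) : ℂ) * (if j = k + 1 then (ν.real Set.univ : ℂ) else 0) := by
    rw [Finset.sum_comm, Finset.mul_sum]
    push_cast
    refine Finset.sum_congr rfl fun k hk => ?_
    rw [Finset.sum_eq_single (k + 1)]
    · rw [if_pos rfl]
      simp only [ha, hb, if_neg (Nat.succ_ne_zero k)]
      push_cast
      ring
    · intro j _ hj
      rw [if_neg hj, mul_zero]
    · intro hk'
      exfalso
      apply hk'
      rw [Finset.mem_range] at hk ⊢
      omega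
  rw [e1, e3, ← Finset.sum_sub_distrib]
  have hδ : 0 ≤ ∫ z, (1 - ‖ev φ z‖) ∂ν := by
    apply integral_nonneg_of_ae
    filter_upwards [h.sph] with z hz
    exact sub_nonneg.2 (h1 z hz)
  set D := 2 * K * ∫ z, (1 - ‖ev φ z‖) ∂ν with hD
  have hD0 : 0 ≤ D := by positivity
  calc _ ≤ ∑ j ∈ Finset.range (K + 1), ∑ k ∈ Finset.range K, 2 * D := by
        refine (norm_sum_le _ _).trans (Finset.sum_le_sum fun j hj => ?_)
        rw [← Finset.sum_sub_distrib]
        refine (norm_sum_le _ _).trans (Finset.sum_le_sum fun k hk => ?_)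
        rw [← mul_sub, norm_mul, Complex.norm_real, Real.norm_eq_abs, abs_mul]
        rw [Finset.mem_range] at hj hk
        have h4 := h.moment' h0 h1 K j (k + 1) (by omega) (by omega)
        have h5 : |a j| * |b k| ≤ 2 := by
          have := ha2 j
          have := hb1 k
          have := abs_nonneg (a j)
          have := abs_nonneg (b k)
          nlinarith
        calc _ ≤ 2 * ‖∫ z, ev φ z ^ j * conj (ev φ z ^ (k + 1)) ∂ν -
              (if j = k + 1 then (ν.real Set.univ : ℂ) else 0)‖ := by gcongr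
          _ ≤ 2 * D := by gcongr
    _ = (K + 1) * K * 2 * D := by
        rw [Finset.sum_const, Finset.sum_const, Finset.card_range, Finset.card_range]
        simp only [nsmul_eq_mul]
        push_cast
        ring

lemma Good.lower (h : Good ν) {φ : MvPolynomial (Fin n) ℂ}
    (h0 : MvPolynomial.constantCoeff φ = 0) (h1 : ∀ z ∈ Sph n, ‖ev φ z‖ ≤ 1) (K : ℕ) {r : ℝ}
    (hr0 : 0 ≤ r) (hr1 : r < 1) (hK : 2 * r ^ (K + 1) / (1 - r) ≤ 1) :
    ν.real Set.univ * ∑ k ∈ Finset.range K, 2 * r ^ (2 * (k + 1)) / (k + 1) -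
      (K + 1) * K * 2 * (2 * K * ∫ z, (1 - ‖ev φ z‖) ∂ν) ≤ 6 * ∫ z, ‖ev (FP K r φ) z‖ ∂ν := by
  have hfin := h.fin
  have h2 := h.pairing h0 h1 K hr0 hr1.le
  set P := ∫ z, FF K r (ev φ z) * conj (GG K r (ev φ z)) ∂ν with hP
  set S := ν.real Set.univ * ∑ k ∈ Finset.range K, 2 * r ^ (2 * (k + 1)) / (k + 1) with hS
  have hS0 : 0 ≤ S := by
    have : 0 ≤ ν.real Set.univ := measureReal_nonneg
    positivity
  have h3 : S - (K + 1) * K * 2 * (2 * K * ∫ z, (1 - ‖ev φ z‖) ∂ν) ≤ ‖P‖ := by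
    have h4 : ‖((S : ℝ) : ℂ)‖ ≤ ‖P‖ + ‖P - ((S : ℝ) : ℂ)‖ := by
      have := norm_sub_le P (P - ((S : ℝ) : ℂ))
      rwa [sub_sub_cancel] at this
    rw [Complex.norm_real, Real.norm_of_nonneg hS0] at h4
    linarith
  refine h3.trans ?_
  have hFG : ∫ z, FF K r (ev φ z) * GG K r (ev φ z) ∂ν = 0 := by
    have h5 := h.mean (FP K r φ * GP K r φ)
    rw [map_mul, cc_GP K r h0, mul_zero, mul_zero] at h5
    simpa only [ev_mul, ev_FP, ev_GP] using h5
  have hcF : Continuous (fun z => FF K r (ev φ z)) :=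
    (continuous_ev (FP K r φ)).congr fun z => ev_FP K r φ z
  have hcG : Continuous (fun z => GG K r (ev φ z)) :=
    (continuous_ev (GP K r φ)).congr fun z => ev_GP K r φ z
  have i1 : Integrable (fun z => FF K r (ev φ z) * conj (GG K r (ev φ z))) ν :=
    h.integrable (hcF.mul (Complex.continuous_conj.comp hcG))
  have i2 : Integrable (fun z => FF K r (ev φ z) * GG K r (ev φ z)) ν :=
    h.integrable (hcF.mul hcG)
  have h6 : P = ∫ z, (FF K r (ev φ z) * conj (GG K r (ev φ z)) -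
      FF K r (ev φ z) * GG K r (ev φ z)) ∂ν := by
    rw [integral_sub i1 i2, hFG, sub_zero]
  rw [h6, ← integral_const_mul]
  have i4 : Integrable (fun z => 6 * ‖ev (FP K r φ) z‖) ν :=
    h.integrable (continuous_const.mul (continuous_ev _).norm)
  apply norm_integral_le_of_norm_le i4
  filter_upwards [h.sph] with z hz
  have h7 := GG_im hr0 hr1 (h1 z hz) hK
  rw [ev_FP, ← mul_sub, norm_mul, mul_comm]
  have h8 : conj (GG K r (ev φ z)) - GG K r (ev φ z) =
      ((-2 * (GG K r (ev φ z)).im : ℝ) : ℂ) * Complex.I := by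
    apply Complex.ext
    · simp
    · simp
      ring
  rw [h8, norm_mul, Complex.norm_real, Complex.norm_I, mul_one, Real.norm_eq_abs, abs_mul]
  have h9 : |(-2 : ℝ)| = 2 := by norm_num
  rw [h9]
  gcongr
  linarith

lemma Good.upper (h : Good ν) {φ : MvPolynomial (Fin n) ℂ}
    (h0 : MvPolynomial.constantCoeff φ = 0) (h1 : ∀ z ∈ Sph n, ‖ev φ z‖ ≤ 1) (K : ℕ) {r : ℝ}
    (hr0 : 0 ≤ r) (hr1 : r < 1) (hK : 2 * r ^ (K + 1) / (1 - r) ≤ 1) :
    ∫ z, |(ev (FP K r φ) z).re| ∂ν ≤ 3 * ν.real Set.univ := by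
  have hfin := h.fin
  have hc := continuous_ev (FP K r φ)
  have i0 : Integrable (fun z => (ev (FP K r φ) z).re) ν := h.integrable (Complex.continuous_re.comp hc)
  have i1 : Integrable (fun z => |(ev (FP K r φ) z).re|) ν :=
    h.integrable (Complex.continuous_re.comp hc).abs
  have h2 : ∫ z, (ev (FP K r φ) z).re ∂ν = ν.real Set.univ := by
    have h3 := integral_re (𝕜 := ℂ) (h.integrable hc)
    simp only [RCLike.re_to_complex] at h3
    rw [h3, h.mean, cc_FP K r h0]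
    simp
  have i2 : Integrable (fun z => (ev (FP K r φ) z).re + 2) ν := i0.add (integrable_const _)
  calc ∫ z, |(ev (FP K r φ) z).re| ∂ν ≤ ∫ z, ((ev (FP K r φ) z).re + 2) ∂ν := by
        apply integral_mono_ae i1 i2
        filter_upwards [h.sph] with z hz
        rw [ev_FP]
        exact FF_re hr0 hr1 (h1 z hz) hK
    _ = 3 * ν.real Set.univ := by
        rw [integral_add i0 (integrable_const _), h2, integral_const, smul_eq_mul]
        ring

/-- The ratio of the `L^1` norms of holomorphic polynomials and of their real parts is unbounded,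
for every nonzero finite circle invariant measure on the unit sphere. -/
theorem Good.unbounded (h : Good ν) (hν : 0 < ν.real Set.univ) (M : ℝ) :
    ∃ p : MvPolynomial (Fin n) ℂ, MvPolynomial.constantCoeff p = 1 ∧
      M * ∫ z, |(ev p z).re| ∂ν < ∫ z, ‖ev p z‖ ∂ν := by
  set V := ν.real Set.univ with hV
  set M' := max M 0 with hM'
  have hM0 : 0 ≤ M' := le_max_right _ _
  -- `K₀`
  obtain ⟨K₀, hK₀⟩ := (Real.tendsto_sum_range_one_div_nat_succ_atTop.eventually_gt_atTop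
    (9 * M' + 1)).exists
  -- `r`
  have hcont : Filter.Tendsto (fun r : ℝ => ∑ k ∈ Finset.range K₀, r ^ (2 * (k + 1)) / ((k : ℝ) + 1))
      (nhdsWithin 1 (Set.Iio 1)) (nhds (∑ k ∈ Finset.range K₀, 1 / ((k : ℝ) + 1))) := by
    have hc : Continuous (fun r : ℝ => ∑ k ∈ Finset.range K₀, r ^ (2 * (k + 1)) / ((k : ℝ) + 1)) := by
      fun_prop
    have := hc.tendsto 1
    simp only [one_pow] at this
    exact this.mono_left nhdsWithin_le_nhds
  have e1 := hcont.eventually (lt_mem_nhds hK₀)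
  have e2 : ∀ᶠ r : ℝ in nhdsWithin 1 (Set.Iio 1), r < 1 := self_mem_nhdsWithin
  have e3 : ∀ᶠ r : ℝ in nhdsWithin 1 (Set.Iio 1), 0 < r :=
    nhdsWithin_le_nhds (lt_mem_nhds one_pos)
  obtain ⟨r, hr, hr1, hr0⟩ := (e1.and (e2.and e3)).exists
  -- `K`
  obtain ⟨K, hK, hKK⟩ : ∃ K, K₀ ≤ K ∧ 2 * r ^ (K + 1) / (1 - r) ≤ 1 := by
    have t1 : Filter.Tendsto (fun K : ℕ => 2 * r ^ (K + 1) / (1 - r)) Filter.atTop (nhds 0) := by
      have t2 := (tendsto_pow_atTop_nhds_zero_of_lt_one hr0.le hr1).comp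
        (Filter.tendsto_add_atTop_nat 1)
      have t3 := (t2.const_mul 2).div_const (1 - r)
      simpa using t3
    obtain ⟨K, h1, h2⟩ := ((t1.eventually (ge_mem_nhds one_pos)).and
      (Filter.eventually_ge_atTop K₀)).exists
    exact ⟨K, h2, h1⟩
  have hS : 2 * (9 * M' + 1) ≤ ∑ k ∈ Finset.range K, 2 * r ^ (2 * (k + 1)) / ((k : ℝ) + 1) := by
    have h2 : ∑ k ∈ Finset.range K₀, r ^ (2 * (k + 1)) / ((k : ℝ) + 1) ≤
        ∑ k ∈ Finset.range K, r ^ (2 * (k + 1)) / ((k : ℝ) + 1) := by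
      apply Finset.sum_le_sum_of_subset_of_nonneg
      · exact Finset.range_mono hK
      · intro k _ _
        positivity
    have h3 : ∑ k ∈ Finset.range K, 2 * r ^ (2 * (k + 1)) / ((k : ℝ) + 1) =
        2 * ∑ k ∈ Finset.range K, r ^ (2 * (k + 1)) / ((k : ℝ) + 1) := by
      rw [Finset.mul_sum]
      exact Finset.sum_congr rfl fun k _ => by ring
    rw [h3]
    linarith
  -- `φ`
  set c : ℝ := ((K : ℝ) + 1) * K * 2 * (2 * K) + 1 with hc
  have hc0 : 0 < c := by positivity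
  obtain ⟨φ, h0, h1, hδ⟩ := h.inner (V / c) (by positivity)
  refine ⟨FP K r φ, cc_FP K r h0, ?_⟩
  have hup := h.upper h0 h1 K hr0.le hr1 hKK
  have hlow := h.lower h0 h1 K hr0.le hr1 hKK
  have herr : ((K : ℝ) + 1) * K * 2 * (2 * K * ∫ z, (1 - ‖ev φ z‖) ∂ν) ≤ V := by
    calc ((K : ℝ) + 1) * K * 2 * (2 * K * ∫ z, (1 - ‖ev φ z‖) ∂ν)
        ≤ ((K : ℝ) + 1) * K * 2 * (2 * K * (V / c)) := by gcongr
      _ = (((K : ℝ) + 1) * K * 2 * (2 * K)) * (V / c) := by ring
      _ ≤ c * (V / c) := by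
          gcongr
          linarith
      _ = V := by field_simp
  have hI0 : 0 ≤ ∫ z, |(ev (FP K r φ) z).re| ∂ν := integral_nonneg fun z => abs_nonneg _
  have h5 : M * ∫ z, |(ev (FP K r φ) z).re| ∂ν ≤ M' * (3 * V) := by
    calc _ ≤ M' * ∫ z, |(ev (FP K r φ) z).re| ∂ν := by
          gcongr
          exact le_max_left _ _
      _ ≤ _ := by gcongr
  have h6 : V * (2 * (9 * M' + 1)) ≤
      V * ∑ k ∈ Finset.range K, 2 * r ^ (2 * (k + 1)) / ((k : ℝ) + 1) := by gcongr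
  nlinarith

end Pool.Agent.Helper60K9
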