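import Pool.Agent.Helper60K9.Inv

/-!
# The improvement step
-/

set_option autoImplicit false

open MeasureTheory Complex
open scoped ComplexConjugate

namespace Pool.Agent.Helper60K9

variable {n : ℕ} {ν : Measure (Fin n → ℂ)}

/-- all monomials of `p` have degree at least `m` -/
def Ord (m : ℕ) (p : MvPolynomial (Fin n) ℂ) : Prop := ∀ α ∈ p.support, m ≤ ∑ i, α i

lemma Ord.zero_left (p : MvPolynomial (Fin n) ℂ) : Ord 0 p := fun _ _ => Nat.zero_le _

lemma Ord.mul {a b : ℕ} {p q : MvPolynomial (Fin n) ℂ} (hp : Ord a p) (hq : Ord b q) :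
    Ord (a + b) (p * q) := by
  classical
  intro α hα
  have h1 := MvPolynomial.support_mul p q hα
  obtain ⟨β, hβ, γ, hγ, rfl⟩ := Finset.mem_add.1 h1
  have h2 : ∑ i, (β + γ) i = ∑ i, β i + ∑ i, γ i := by
    rw [← Finset.sum_add_distrib]
    rfl
  rw [h2]
  exact add_le_add (hp β hβ) (hq γ hγ)

lemma Ord.pow {a : ℕ} {p : MvPolynomial (Fin n) ℂ} (hp : Ord a p) (k : ℕ) :
    Ord (k * a) (p ^ k) := by
  induction k with
  | zero => rw [Nat.zero_mul]; exact Ord.zero_left _
  | succ k ih =>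
    rw [pow_succ, Nat.succ_mul]
    exact ih.mul hp

lemma Ord.add {a : ℕ} {p q : MvPolynomial (Fin n) ℂ} (hp : Ord a p) (hq : Ord a q) :
    Ord a (p + q) := by
  classical
  intro α hα
  rcases Finset.mem_union.1 (MvPolynomial.support_add hα) with h | h
  · exact hp α h
  · exact hq α h

lemma Ord.C_mul {a : ℕ} {p : MvPolynomial (Fin n) ℂ} (hp : Ord a p) (c : ℂ) :
    Ord a (MvPolynomial.C c * p) := by
  intro α hα
  apply hp α
  rw [MvPolynomial.mem_support_iff] at hα ⊢
  intro h0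
  apply hα
  rw [MvPolynomial.coeff_C_mul, h0, mul_zero]

lemma Ord.zero (a : ℕ) : Ord a (0 : MvPolynomial (Fin n) ℂ) := by
  intro α hα
  simp at hα

lemma Ord.sum {ι : Type*} {a : ℕ} (s : Finset ι) {p : ι → MvPolynomial (Fin n) ℂ}
    (hp : ∀ i ∈ s, Ord a (p i)) : Ord a (∑ i ∈ s, p i) := by
  classical
  induction s using Finset.induction_on with
  | empty => simpa using Ord.zero a
  | insert i s hi ih =>
    rw [Finset.sum_insert hi]
    exact (hp i (Finset.mem_insert_self i s)).add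
      (ih fun j hj => hp j (Finset.mem_insert_of_mem hj))

lemma Ord.const {a : ℕ} {p : MvPolynomial (Fin n) ℂ} (hp : Ord (a + 1) p) :
    MvPolynomial.constantCoeff p = 0 := by
  by_contra h
  rw [MvPolynomial.constantCoeff_eq] at h
  have := hp 0 (MvPolynomial.mem_support_iff.2 h)
  simp at this

/-- the linear form `z ↦ ip z w` -/
noncomputable def lin (w : Fin n → ℂ) : MvPolynomial (Fin n) ℂ :=
  ∑ i, MvPolynomial.C (conj (w i)) * MvPolynomial.X i

lemma Ord.lin (w : Fin n → ℂ) : Ord 1 (lin w) := by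
  apply Ord.sum
  intro i _
  apply Ord.C_mul
  intro α hα
  rw [MvPolynomial.support_X, Finset.mem_singleton] at hα
  subst hα
  rw [Finset.sum_eq_single i]
  · simp
  · intro j _ hj
    simp [hj.symm]
  · simp

lemma ev_lin (w z : Fin n → ℂ) : ev (lin w) z = ip z w := by
  simp [ev, Pool.Agent.Helper60K9.lin, ip]

/-- the peak polynomial -/
noncomputable def pkP (M L : ℕ) (w : Fin n → ℂ) : MvPolynomial (Fin n) ℂ :=
  (lin w) ^ M * (MvPolynomial.C (1 / 2) * (1 + lin w)) ^ (2 * L ^ 2)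

lemma Ord.pkP (M L : ℕ) (w : Fin n → ℂ) : Ord M (pkP M L w) := by
  have h := ((Ord.lin w).pow M).mul (Ord.zero_left ((MvPolynomial.C (1 / 2) * (1 + Helper60K9.lin w)) ^ (2 * L ^ 2)))
  rw [mul_one, add_zero] at h
  exact h

lemma ev_pkP (M L : ℕ) (w z : Fin n → ℂ) : ev (pkP M L w) z = pk M L w z := by
  have h := ev_lin w z
  unfold ev at h
  simp only [ev, Helper60K9.pkP, pk, map_mul, map_pow, map_add, map_one, MvPolynomial.eval_C, h]
  congr 2
  ring

/-- choice of signs -/
lemma Good.signs (h : Good ν) {ι : Type*} (s : Finset ι) (p : ι → MvPolynomial (Fin n) ℂ) :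
    ∃ ε : ι → ℂ, (∀ i, ‖ε i‖ = 1) ∧
      ∑ i ∈ s, ∫ z, ‖ev (p i) z‖ ^ 2 ∂ν ≤
        ∫ z, ‖ev (∑ i ∈ s, MvPolynomial.C (ε i) * p i) z‖ ^ 2 ∂ν := by
  classical
  induction s using Finset.induction_on with
  | empty =>
    exact ⟨fun _ => 1, fun _ => norm_one, by simp [ev]⟩
  | insert i s hi ih =>
    obtain ⟨ε, h1, h2⟩ := ih
    set q := ∑ j ∈ s, MvPolynomial.C (ε j) * p j with hq
    have hpar : ∫ z, ‖ev (p i + q) z‖ ^ 2 ∂ν + ∫ z, ‖ev (-p i + q) z‖ ^ 2 ∂ν =
        2 * (∫ z, ‖ev (p i) z‖ ^ 2 ∂ν + ∫ z, ‖ev q z‖ ^ 2 ∂ν) := by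
      rw [← integral_add, ← integral_add, ← integral_const_mul]
      · congr 1
        funext z
        have e1 : ev (p i + q) z = ev q z + ev (p i) z := by simp [ev, add_comm]
        have e2 : ev (-p i + q) z = ev q z - ev (p i) z := by simp [ev]; ring
        have := parallelogram_law_with_norm ℝ (ev q z) (ev (p i) z)
        rw [e1, e2]
        nlinarith
      all_goals exact h.integrable ((continuous_ev _).norm.pow 2)
    have hchoice : ∃ c : ℂ, ‖c‖ = 1 ∧ ∫ z, ‖ev (p i) z‖ ^ 2 ∂ν + ∫ z, ‖ev q z‖ ^ 2 ∂ν ≤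
        ∫ z, ‖ev (MvPolynomial.C c * p i + q) z‖ ^ 2 ∂ν := by
      by_cases hcase : ∫ z, ‖ev (p i) z‖ ^ 2 ∂ν + ∫ z, ‖ev q z‖ ^ 2 ∂ν ≤
        ∫ z, ‖ev (p i + q) z‖ ^ 2 ∂ν
      · exact ⟨1, norm_one, by simpa using hcase⟩
      · refine ⟨-1, by simp, ?_⟩
        have e : MvPolynomial.C (-1 : ℂ) * p i + q = -p i + q := by simp
        rw [e]
        push Not at hcase
        linarith
    obtain ⟨c, hc1, hc2⟩ := hchoice
    refine ⟨Function.update ε i c, fun j => ?_, ?_⟩
    · by_cases hj : j = i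
      · subst hj; simpa using hc1
      · simpa [Function.update_of_ne hj] using h1 j
    · rw [Finset.sum_insert hi, Finset.sum_insert hi]
      have e : ∑ j ∈ s, MvPolynomial.C (Function.update ε i c j) * p j = q := by
        rw [hq]
        refine Finset.sum_congr rfl fun j hj => ?_
        have hne : j ≠ i := by rintro rfl; exact hi hj
        rw [Function.update_of_ne hne]
      rw [e, Function.update_self]
      linarith

/-- the constant of the step -/
noncomputable def c0 (n : ℕ) : ℝ := (Real.exp (-(4 * n)) / Cn n) ^ 2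

lemma c0_pos (n : ℕ) : 0 < c0 n := by
  have := Cn_pos n
  unfold c0
  positivity

lemma Good.step (h : Good ν) (φ : MvPolynomial (Fin n) ℂ) (hφ : ∀ z ∈ Sph n, ‖ev φ z‖ ≤ 1)
    (ε : ℝ) (hε : 0 < ε) (m : ℕ) :
    ∃ p : MvPolynomial (Fin n) ℂ, Ord m p ∧ (∀ z ∈ Sph n, ‖ev φ z‖ + ‖ev p z‖ ≤ 1 + ε) ∧
      c0 n * (∫ z, (1 - ‖ev φ z‖) ^ 2 ∂ν - 2 * ε * ν.real Set.univ) ≤
        ∫ z, ‖ev p z‖ ^ 2 ∂ν := by
  have hfin := h.fin
  set ψ : (Fin n → ℂ) → ℝ := fun z => 1 - ‖ev φ z‖ with hψ
  have hψc : Continuous ψ := continuous_const.sub (continuous_ev φ).norm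
  have hψ0 : ∀ z ∈ Sph n, 0 ≤ ψ z := fun z hz => sub_nonneg.2 (hφ z hz)
  have hψ1 : ∀ z, ψ z ≤ 1 := fun z => by
    have := norm_nonneg (ev φ z)
    simp only [hψ]
    linarith
  -- uniform continuity
  obtain ⟨δ, hδ, hδ'⟩ := Metric.uniformContinuousOn_iff.1
    ((isCompact_Sph n).uniformContinuousOn_of_continuous hψc.continuousOn) ε hε
  -- choice of `L`
  obtain ⟨L, hL0, hL1, hL2, hL3, hL4⟩ : ∃ L : ℕ, 0 < L ∧ 2 * n ≤ L ^ 2 ∧ m ≤ L ^ 2 ∧
      Real.exp (-(L ^ 2 * δ ^ 2 / 8)) ≤ ε ∧ 2 * (n : ℝ) < L ^ 2 * δ ^ 2 := by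
    have t1 : Filter.Tendsto (fun L : ℕ => (L : ℝ) ^ 2) Filter.atTop Filter.atTop :=
      (Filter.tendsto_pow_atTop (by norm_num)).comp tendsto_natCast_atTop_atTop
    have t2 : Filter.Tendsto (fun L : ℕ => (L : ℝ) ^ 2 * δ ^ 2) Filter.atTop Filter.atTop :=
      t1.atTop_mul_const (by positivity)
    have t3 : Filter.Tendsto (fun L : ℕ => Real.exp (-((L : ℝ) ^ 2 * δ ^ 2 / 8)))
        Filter.atTop (nhds 0) := by
      apply Real.tendsto_exp_atBot.comp
      apply Filter.tendsto_neg_atTop_atBot.comp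
      exact t2.atTop_div_const (by norm_num)
    have e1 := t3.eventually (ge_mem_nhds hε)
    have e2 := t2.eventually_gt_atTop (2 * (n : ℝ))
    have e3 := t1.eventually_ge_atTop (2 * (n : ℝ))
    have e4 := t1.eventually_ge_atTop (m : ℝ)
    obtain ⟨L, h1, h2, h3, h4, h5⟩ := (e1.and (e2.and (e3.and (e4.and
      (Filter.eventually_gt_atTop 0))))).exists
    refine ⟨L, h5, ?_, ?_, h1, h2⟩
    · exact_mod_cast h3
    · exact_mod_cast h4
  have hCn := Cn_pos n
  -- the polynomials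
  set q : (Fin n × Bool → ℤ) → MvPolynomial (Fin n) ℂ := fun k =>
    MvPolynomial.C (((Cn n)⁻¹ * ψ (rep (L := L) k) : ℝ) : ℂ) * pkP m L (rep (L := L) k) with hq
  have hq_norm : ∀ k z, k ∈ cells n L → ‖ev (q k) z‖ =
      (Cn n)⁻¹ * (ψ (rep (L := L) k) * ‖pk m L (rep (L := L) k) z‖) := by
    intro k z hk
    have e : ev (q k) z = (((Cn n)⁻¹ * ψ (rep (L := L) k) : ℝ) : ℂ) * pk m L (rep (L := L) k) z := by
      rw [← ev_pkP]
      simp [ev, hq]
    rw [e, norm_mul, Complex.norm_real, Real.norm_of_nonneg, mul_assoc]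
    exact mul_nonneg (inv_nonneg.2 hCn.le) (hψ0 _ (rep_spec hk).1)
  obtain ⟨s, hs1, hs2⟩ := h.signs (cells n L) q
  refine ⟨∑ k ∈ cells n L, MvPolynomial.C (s k) * q k, ?_, ?_, ?_⟩
  · exact Ord.sum _ fun k _ => ((Ord.pkP m L _).C_mul _).C_mul _
  · intro z hz
    have hb : ‖ev (∑ k ∈ cells n L, MvPolynomial.C (s k) * q k) z‖ ≤
        ∑ k ∈ cells n L, ‖ev (q k) z‖ := by
      have e : ev (∑ k ∈ cells n L, MvPolynomial.C (s k) * q k) z =
          ∑ k ∈ cells n L, s k * ev (q k) z := by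
        simp [ev]
      rw [e]
      refine (norm_sum_le _ _).trans (le_of_eq ?_)
      refine Finset.sum_congr rfl fun k _ => ?_
      rw [norm_mul, hs1, one_mul]
    have hb2 : ∑ k ∈ cells n L, ‖ev (q k) z‖ ≤ ψ z + ε := by
      calc ∑ k ∈ cells n L, ‖ev (q k) z‖
          ≤ ∑ k ∈ cells n L, (Cn n)⁻¹ * ((ψ z + ε) *
              Real.exp (-(L ^ 2 * dd z (rep (L := L) k) / 8))) := by
            refine Finset.sum_le_sum fun k hk => ?_
            rw [hq_norm k z hk]
            have hr := (rep_spec hk).1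
            have hpk := pk_upper m L hz hr
            set e := Real.exp (-(L ^ 2 * dd z (rep (L := L) k) / 8)) with he
            have he0 : 0 < e := Real.exp_pos _
            have he1 : e ≤ 1 := by
              rw [he, Real.exp_le_one_iff]
              have := dd_nonneg z (rep (L := L) k)
              have : 0 ≤ (L : ℝ) ^ 2 * dd z (rep (L := L) k) / 8 := by positivity
              linarith
            refine mul_le_mul_of_nonneg_left ?_ (inv_nonneg.2 hCn.le)
            have h3 : ψ (rep (L := L) k) * ‖pk m L (rep (L := L) k) z‖ ≤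
                ψ (rep (L := L) k) * e ^ 2 := mul_le_mul_of_nonneg_left hpk (hψ0 _ hr)
            refine h3.trans ?_
            by_cases hnear : dist (rep (L := L) k) z < δ
            · have h4 := hδ' _ hr _ hz hnear
              rw [Real.dist_eq] at h4
              have h5 := (abs_lt.1 h4).2
              have h6 : ψ (rep (L := L) k) ≤ ψ z + ε := by linarith
              calc ψ (rep (L := L) k) * e ^ 2 ≤ (ψ z + ε) * e ^ 2 := by gcongr
                _ ≤ (ψ z + ε) * e := by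
                  have : 0 ≤ ψ z + ε := by linarith [hψ0 z hz]
                  gcongr
                  nlinarith
            · push Not at hnear
              have h7 : e ≤ ε := by
                refine le_trans ?_ hL3
                rw [he, Real.exp_le_exp]
                have h8 : δ ^ 2 ≤ dd z (rep (L := L) k) := by
                  refine le_trans ?_ (dist_sq_le _ _)
                  rw [dist_comm] at hnear
                  gcongr
                have : (L : ℝ) ^ 2 * δ ^ 2 ≤ (L : ℝ) ^ 2 * dd z (rep (L := L) k) := by gcongr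
                linarith
              have h9 := hψ0 z hz
              calc ψ (rep (L := L) k) * e ^ 2 ≤ 1 * e ^ 2 := by
                    gcongr
                    exact hψ1 _
                _ = e * e := by ring
                _ ≤ (ψ z + ε) * e := by
                    gcongr
                    linarith
        _ = (Cn n)⁻¹ * ((ψ z + ε) * ∑ k ∈ cells n L,
              Real.exp (-(L ^ 2 * dd z (rep (L := L) k) / 8))) := by
            rw [Finset.mul_sum, Finset.mul_sum]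
        _ ≤ (Cn n)⁻¹ * ((ψ z + ε) * Cn n) := by
            have : 0 ≤ ψ z + ε := by linarith [hψ0 z hz]
            gcongr
            exact sum_exp_le L z
        _ = ψ z + ε := by
            field_simp
    have : ψ z = 1 - ‖ev φ z‖ := rfl
    linarith
  · refine le_trans ?_ hs2
    -- pointwise bound
    have hpt : ∀ z ∈ Sph n, ψ z ^ 2 ≤ (c0 n)⁻¹ * ∑ k ∈ cells n L, ‖ev (q k) z‖ ^ 2 + 2 * ε := by
      intro z hz
      have hk := cell_mem hz L
      obtain ⟨hr, hrc⟩ := rep_spec hk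
      set r := rep (L := L) (cell L z) with hr_def
      have hdd := dd_cell (z := z) (w := r) hrc.symm
      have hlow := pk_lower m L hL1 hL2 hL0 hz hr hdd
      have hdist : dist r z < δ := by
        have h1 := dist_sq_le z r
        have h2 : (L : ℝ) ^ 2 * dist z r ^ 2 < (L : ℝ) ^ 2 * δ ^ 2 := by
          calc (L : ℝ) ^ 2 * dist z r ^ 2 ≤ (L : ℝ) ^ 2 * dd z r := by gcongr
            _ ≤ 2 * (n : ℝ) := hdd
            _ < (L : ℝ) ^ 2 * δ ^ 2 := hL4
        have h3 : dist z r ^ 2 < δ ^ 2 := lt_of_mul_lt_mul_left h2 (by positivity)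
        rw [dist_comm]
        exact lt_of_pow_lt_pow_left₀ 2 hδ.le h3
      have h4 := hδ' _ hr _ hz hdist
      rw [Real.dist_eq] at h4
      have h5 := (abs_lt.1 h4).1
      have h6 : ψ z ^ 2 ≤ ψ r ^ 2 + 2 * ε := by
        have a1 := hψ0 z hz
        have a2 := hψ0 r hr
        have a3 := hψ1 z
        have a4 := hψ1 r
        nlinarith
      have h7 : (c0 n) * ψ r ^ 2 ≤ ‖ev (q (cell L z)) z‖ ^ 2 := by
        rw [hq_norm _ z hk, ← hr_def]
        have a2 := hψ0 r hr
        have e1 : c0 n * ψ r ^ 2 = ((Cn n)⁻¹ * (ψ r * Real.exp (-(4 * n)))) ^ 2 := by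
          unfold c0
          field_simp
        rw [e1]
        gcongr
      have h8 : ‖ev (q (cell L z)) z‖ ^ 2 ≤ ∑ k ∈ cells n L, ‖ev (q k) z‖ ^ 2 :=
        Finset.single_le_sum (f := fun k => ‖ev (q k) z‖ ^ 2) (fun k _ => sq_nonneg _) hk
      have hc0 := c0_pos n
      have h9 : ψ r ^ 2 ≤ (c0 n)⁻¹ * ∑ k ∈ cells n L, ‖ev (q k) z‖ ^ 2 := by
        rw [le_inv_mul_iff₀ hc0]
        exact h7.trans h8
      linarith
    have hi1 : ∀ k, Integrable (fun z => ‖ev (q k) z‖ ^ 2) ν := fun k =>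
      h.integrable ((continuous_ev _).norm.pow 2)
    have hint : ∫ z, ψ z ^ 2 ∂ν ≤ ∫ z, ((c0 n)⁻¹ * ∑ k ∈ cells n L, ‖ev (q k) z‖ ^ 2 + 2 * ε) ∂ν := by
      apply integral_mono_ae
      · exact h.integrable (hψc.pow 2)
      · exact ((integrable_finsetSum _ fun k _ => hi1 k).const_mul _).add (integrable_const _)
      · filter_upwards [h.sph] with z hz using hpt z hz
    rw [integral_add ((integrable_finsetSum _ fun k _ => hi1 k).const_mul _) (integrable_const _),
      integral_const_mul, integral_finsetSum _ fun k _ => hi1 k, integral_const, smul_eq_mul] at hint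
    have hc0 := c0_pos n
    have h10 : ∫ z, ψ z ^ 2 ∂ν - 2 * ε * ν.real Set.univ ≤
        (c0 n)⁻¹ * ∑ k ∈ cells n L, ∫ z, ‖ev (q k) z‖ ^ 2 ∂ν := by linarith
    rw [le_inv_mul_iff₀ hc0] at h10
    exact h10

end Pool.Agent.Helper60K9
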